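import Pool.Agent.Helper54_LY.Chn2

/-!
# The chaining bound: the recursion
-/

set_option autoImplicit false
set_option linter.unusedSectionVars false

open scoped InnerProductSpace ComplexConjugate Topology ENNReal
open MeasureTheory Filter ProbabilityTheory

noncomputable section

namespace Pool.Agent.LY

open Pool.Agent.Anderson Pool.Agent.Loc Pool.Agent.Mob Pool.Agent.Helper54.Bal

variable {d : ℕ}

/-- the maximum of `- log |G|` in a cube -/
def Sx (Λ : Finset (Site d)) (E : ℝ) (c : Site d) (n : ℕ) (V : Site d → ℝ) : ℝ≥0∞ :=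
  (box c n).sup fun s => Dp (gr V Λ E c s)

theorem measurable_fsup {α ι : Type*} [MeasurableSpace α] (S : Finset ι) {f : ι → α → ℝ≥0∞}
    (hf : ∀ i, Measurable (f i)) : Measurable fun x => S.sup fun i => f i x := by
  classical
  induction S using Finset.induction_on with
  | empty => simp only [Finset.sup_empty]; exact measurable_const
  | insert a s ha ih =>
    simp only [Finset.sup_insert]
    exact (hf a).sup ih

theorem measurable_Sx (Λ : Finset (Site d)) (E : ℝ) (c : Site d) (n : ℕ) :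
    Measurable (Sx Λ E c n) :=
  measurable_fsup _ fun s => measurable_Dp.comp (measurable_gr Λ E c s)

theorem three_le : (3 : ℝ) ^ (1 / 4 : ℝ) ≤ 4 / 3 := by
  have h : (3 : ℝ) ≤ (4 / 3) ^ (4 : ℕ) := by norm_num
  calc (3 : ℝ) ^ (1 / 4 : ℝ) ≤ ((4 / 3 : ℝ) ^ (4 : ℕ)) ^ (1 / 4 : ℝ) :=
        Real.rpow_le_rpow (by norm_num) h (by norm_num)
    _ = 4 / 3 := by
        rw [← Real.rpow_natCast, ← Real.rpow_mul (by norm_num)]
        norm_num

theorem card_pow_le (hd : 1 ≤ d) {N a : ℕ} (h : N ≤ a ^ d) :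
    ((N : ℕ) : ℝ≥0∞) ^ (1 / ((4 * d : ℕ) : ℝ)) ≤ ENNReal.ofReal ((a : ℝ) ^ (1 / 4 : ℝ)) := by
  have hd0 : (0 : ℝ) < d := by exact_mod_cast hd
  calc ((N : ℕ) : ℝ≥0∞) ^ (1 / ((4 * d : ℕ) : ℝ)) ≤ (((a ^ d : ℕ) : ℕ) : ℝ≥0∞) ^ (1 / ((4 * d : ℕ) : ℝ)) := by
        apply ENNReal.rpow_le_rpow _ (by positivity)
        exact_mod_cast h
    _ = _ := by
        have h1 : (((a ^ d : ℕ) : ℕ) : ℝ≥0∞) = ENNReal.ofReal ((a : ℝ) ^ d) := by
          rw [← ENNReal.ofReal_natCast]
          push_cast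
          rfl
        rw [h1, ENNReal.ofReal_rpow_of_nonneg (by positivity) (by positivity), ← Real.rpow_natCast,
          ← Real.rpow_mul (by positivity)]
        congr 2
        push_cast
        field_simp

section main

variable {σ E C1 C2 : ℝ} {Λ : Finset (Site d)}

theorem recursion (hd : 1 ≤ d) (hC1 : 0 ≤ C1) (hC2 : 0 ≤ C2)
    (h1 : ∀ x y : Site d, x ∈ Λ → y ∈ Λ → (x = y ∨ hop x y ≠ 0) →
      Nn (PL (gl σ) Λ) ((4 * d : ℕ) : ℝ) (fun V => Dp (gr V Λ E x y)) ≤ ENNReal.ofReal C1)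
    (h2 : ∀ x u y : Site d, Nn (PL (gl σ) Λ) ((4 * d : ℕ) : ℝ)
      (fun V => Rp (gr V Λ E x u) (gr V Λ E u y) (gr V Λ E x y)) ≤ ENNReal.ofReal C2)
    (n : ℕ) : 1 ≤ n → ∀ c : Site d, box c n ⊆ Λ →
      Nn (PL (gl σ) Λ) ((4 * d : ℕ) : ℝ) (Sx Λ E c n) ≤
        ENNReal.ofReal ((12 * d * (C1 + C2) + 81 * C2) * n) := by
  have hd1 : (1 : ℝ) ≤ d := by exact_mod_cast hd
  have hp1 : (1 : ℝ) ≤ ((4 * d : ℕ) : ℝ) := by
    push_cast; linarith
  have hp0 : (0 : ℝ) < ((4 * d : ℕ) : ℝ) := by linarith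
  have mD : ∀ x y, Measurable fun V : Site d → ℝ => Dp (gr V Λ E x y) := fun x y =>
    measurable_Dp.comp (measurable_gr Λ E x y)
  have mR : ∀ x u y, Measurable fun V : Site d → ℝ =>
      Rp (gr V Λ E x u) (gr V Λ E u y) (gr V Λ E x y) := fun x u y =>
    measurable_Rp (measurable_gr Λ E _ _) (measurable_gr Λ E _ _) (measurable_gr Λ E _ _)
  have hpath : ∀ (n : ℕ) (c : Site d), box c n ⊆ Λ → ∀ s, sd c s ≤ n →
      Nn (PL (gl σ) Λ) ((4 * d : ℕ) : ℝ) (fun V => Dp (gr V Λ E c s)) ≤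
        ENNReal.ofReal ((d * n + 1) * (C1 + C2)) := by
    intro n c hc s hs
    refine (path hp1 hC1 hC2 h1 h2 hc (l1 c s) s rfl hs).trans (ENNReal.ofReal_le_ofReal ?_)
    have h3 : (l1 c s : ℝ) ≤ d * n := by exact_mod_cast l1_le c s hs
    have h4 : 0 ≤ C1 + C2 := by linarith
    nlinarith
  have h34 : ENNReal.ofReal (((3 : ℕ) : ℝ) ^ (1 / 4 : ℝ)) ≤ ENNReal.ofReal (4 / 3) :=
    ENNReal.ofReal_le_ofReal (by push_cast; exact three_le)
  induction n using Nat.strong_induction_on with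
  | _ n ih =>
    intro hn c hc
    rcases Nat.lt_or_ge n 2 with hn2 | hn2
    · have hn1 : n = 1 := by omega
      subst hn1
      have h3 := Nn_sup (μ := PL (gl σ) Λ) hp0 (box c 1) (f := fun s V => Dp (gr V Λ E c s))
        (fun s _ => mD c s) (C := ENNReal.ofReal ((d * (1 : ℕ) + 1) * (C1 + C2)))
        (fun s hs => hpath 1 c hc s (mem_box.1 hs))
      refine h3.trans ?_
      have h4 : (((box c 1).card : ℕ) : ℝ≥0∞) ^ (1 / ((4 * d : ℕ) : ℝ)) ≤
          ENNReal.ofReal (4 / 3) :=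
        (card_pow_le hd (a := 3) (by rw [card_box])).trans h34
      refine (mul_le_mul' h4 le_rfl).trans ?_
      rw [← ENNReal.ofReal_mul (by norm_num)]
      apply ENNReal.ofReal_le_ofReal
      push_cast
      have h5 : 0 ≤ C1 + C2 := by linarith
      nlinarith [mul_nonneg (sub_nonneg.2 hd1) h5]
    · set r' := n / 2 with hr'
      set r := n - r' with hr
      have hrr : r + r' = n := by omega
      have hle : r' ≤ r := by omega
      have hrn : r < n := by omega
      have hr1 : 1 ≤ r := by omega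
      have h23 : 3 * r ≤ 2 * n := by omega
      have hcm : ∀ w ∈ Wc c r', box w r ⊆ Λ := by
        intro w hw s hs
        apply hc
        rw [mem_box] at hs ⊢
        have := sd_triangle c w s
        have := sd_Wc hw
        omega
      have hcr' : box c r' ⊆ Λ := (box_mono c (by omega)).trans hc
      -- the pointwise inequality
      have hpt : ∀ V, Sx Λ E c n V ≤ ((Wc c r').sup (fun w => Dp (gr V Λ E c w)) +
          (Wc c r').sup (fun w => Sx Λ E w r V)) +
          ((Wc c r') ×ˢ (box c n)).sup (fun q => Rp (gr V Λ E c q.1) (gr V Λ E q.1 q.2)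
            (gr V Λ E c q.2)) := by
        intro V
        unfold Sx
        apply Finset.sup_le
        intro s hs
        obtain ⟨w, hw, hws⟩ := exists_Wc (mem_box.1 hs) hrr hle
        refine (Dp_le (gr V Λ E c w) (gr V Λ E w s) _).trans ?_
        refine add_le_add (add_le_add ?_ ?_) ?_
        · exact Finset.le_sup (f := fun w => Dp (gr V Λ E c w)) hw
        · refine le_trans ?_ (Finset.le_sup (f := fun w => (box w r).sup fun s =>
            Dp (gr V Λ E w s)) hw)
          exact Finset.le_sup (f := fun s => Dp (gr V Λ E w s)) (mem_box.2 hws)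
        · exact Finset.le_sup (f := fun q : Site d × Site d => Rp (gr V Λ E c q.1)
            (gr V Λ E q.1 q.2) (gr V Λ E c q.2)) (Finset.mk_mem_product hw hs)
      have m1 : Measurable fun V => (Wc c r').sup (fun w => Dp (gr V Λ E c w)) :=
        measurable_fsup _ fun w => mD c w
      have m2 : Measurable fun V => (Wc c r').sup (fun w => Sx Λ E w r V) :=
        measurable_fsup _ fun w => measurable_Sx Λ E w r
      have m3 : Measurable fun V => ((Wc c r') ×ˢ (box c n)).sup (fun q => Rp (gr V Λ E c q.1)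
          (gr V Λ E q.1 q.2) (gr V Λ E c q.2)) :=
        measurable_fsup _ fun q => mR c q.1 q.2
      have hW : (((Wc c r').card : ℕ) : ℝ≥0∞) ^ (1 / ((4 * d : ℕ) : ℝ)) ≤
          ENNReal.ofReal (4 / 3) :=
        (card_pow_le hd (a := 3) (card_Wc c r')).trans h34
      have n1 : Nn (PL (gl σ) Λ) ((4 * d : ℕ) : ℝ)
          (fun V => (Wc c r').sup (fun w => Dp (gr V Λ E c w))) ≤
          ENNReal.ofReal (4 / 3 * ((d * r' + 1) * (C1 + C2))) := by
        refine (Nn_sup hp0 (Wc c r') (f := fun w V => Dp (gr V Λ E c w)) (fun w _ => mD c w)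
          (C := ENNReal.ofReal ((d * r' + 1) * (C1 + C2)))
          (fun w hw => hpath r' c hcr' w (sd_Wc hw))).trans ?_
        rw [ENNReal.ofReal_mul (p := 4 / 3) (by norm_num)]
        exact mul_le_mul' hW le_rfl
      have n2 : Nn (PL (gl σ) Λ) ((4 * d : ℕ) : ℝ)
          (fun V => (Wc c r').sup (fun w => Sx Λ E w r V)) ≤
          ENNReal.ofReal (4 / 3 * ((12 * d * (C1 + C2) + 81 * C2) * r)) := by
        refine (Nn_sup hp0 (Wc c r') (f := fun w V => Sx Λ E w r V)
          (fun w _ => measurable_Sx Λ E w r)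
          (C := ENNReal.ofReal ((12 * d * (C1 + C2) + 81 * C2) * r))
          (fun w hw => ih r hrn hr1 w (hcm w hw))).trans ?_
        rw [ENNReal.ofReal_mul (p := 4 / 3) (by norm_num)]
        exact mul_le_mul' hW le_rfl
      have n3 : Nn (PL (gl σ) Λ) ((4 * d : ℕ) : ℝ)
          (fun V => ((Wc c r') ×ˢ (box c n)).sup (fun q => Rp (gr V Λ E c q.1)
          (gr V Λ E q.1 q.2) (gr V Λ E c q.2))) ≤ ENNReal.ofReal (9 * n * C2) := by
        refine (Nn_sup hp0 ((Wc c r') ×ˢ (box c n)) (f := fun q V => Rp (gr V Λ E c q.1)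
          (gr V Λ E q.1 q.2) (gr V Λ E c q.2)) (fun q _ => mR c q.1 q.2)
          (C := ENNReal.ofReal C2) (fun q _ => h2 c q.1 q.2)).trans ?_
        have hcard : ((Wc c r') ×ˢ (box c n)).card ≤ (3 * (2 * n + 1)) ^ d := by
          rw [Finset.card_product, card_box, mul_pow]
          exact Nat.mul_le_mul_right _ (card_Wc c r')
        have h5 := card_pow_le hd hcard
        have h6 : ((3 * (2 * n + 1) : ℕ) : ℝ) ^ (1 / 4 : ℝ) ≤ 9 * n := by
          have h7 : (1 : ℝ) ≤ ((3 * (2 * n + 1) : ℕ) : ℝ) := by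
            push_cast
            have : (0 : ℝ) ≤ n := Nat.cast_nonneg n
            linarith
          have hn1 : (1 : ℝ) ≤ n := by exact_mod_cast hn
          calc ((3 * (2 * n + 1) : ℕ) : ℝ) ^ (1 / 4 : ℝ) ≤ ((3 * (2 * n + 1) : ℕ) : ℝ) ^ (1 : ℝ) :=
                Real.rpow_le_rpow_of_exponent_le h7 (by norm_num)
            _ = 3 * (2 * n + 1) := by rw [Real.rpow_one]; push_cast; ring
            _ ≤ _ := by linarith
        rw [ENNReal.ofReal_mul (by positivity)]
        refine mul_le_mul' (h5.trans (ENNReal.ofReal_le_ofReal h6)) le_rfl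
      have hC12 : 0 ≤ C1 + C2 := by linarith
      calc Nn (PL (gl σ) Λ) ((4 * d : ℕ) : ℝ) (Sx Λ E c n)
          ≤ Nn (PL (gl σ) Λ) ((4 * d : ℕ) : ℝ) (fun V =>
              ((Wc c r').sup (fun w => Dp (gr V Λ E c w)) +
              (Wc c r').sup (fun w => Sx Λ E w r V)) +
              ((Wc c r') ×ˢ (box c n)).sup (fun q => Rp (gr V Λ E c q.1) (gr V Λ E q.1 q.2)
              (gr V Λ E c q.2))) := Nn_mono hp0 hpt
        _ ≤ (ENNReal.ofReal (4 / 3 * ((d * r' + 1) * (C1 + C2))) +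
              ENNReal.ofReal (4 / 3 * ((12 * d * (C1 + C2) + 81 * C2) * r))) +
              ENNReal.ofReal (9 * n * C2) := by
            refine (Nn_add hp1 (m1.add m2) m3).trans ?_
            refine add_le_add ((Nn_add hp1 m1 m2).trans (add_le_add n1 n2)) n3
        _ ≤ _ := by
            rw [← ENNReal.ofReal_add (by positivity) (by positivity),
              ← ENNReal.ofReal_add (by positivity) (by positivity)]
            apply ENNReal.ofReal_le_ofReal
            have e1 : (3 : ℝ) * r ≤ 2 * n := by exact_mod_cast h23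
            have e2 : (2 : ℝ) * r' ≤ n := by
              have : 2 * r' ≤ n := by omega
              exact_mod_cast this
            have e3 : (2 : ℝ) ≤ n := by exact_mod_cast hn2
            have e4 : (d : ℝ) * r' + 1 ≤ d * n := by nlinarith
            have e5 : 4 / 3 * (((d : ℝ) * r' + 1) * (C1 + C2)) ≤ 4 / 3 * (d * n * (C1 + C2)) := by
              gcongr
            have e6 : 4 / 3 * ((12 * d * (C1 + C2) + 81 * C2) * r) ≤
                8 / 9 * ((12 * d * (C1 + C2) + 81 * C2) * n) := by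
              have e7 : 0 ≤ 12 * d * (C1 + C2) + 81 * C2 := by positivity
              nlinarith
            linarith

end main

/-- CHN: the chaining bound -/
theorem chn {σ : ℝ} (hσ : σ ≠ 0) (E : ℝ) : ∃ C, Pool.Agent.LE.ChnTail d (gl σ) E C := by
  rcases Nat.eq_zero_or_pos d with hd | hd
  · subst hd
    refine ⟨1, fun R n c t _ _ _ => ?_⟩
    simp only [Nat.mul_zero, pow_zero, mul_one, ENNReal.ofReal_one]
    exact prob_le_one
  have hd1 : (1 : ℝ) ≤ d := by exact_mod_cast hd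
  have hp0 : (0 : ℝ) < ((4 * d : ℕ) : ℝ) := by
    push_cast; linarith
  obtain ⟨C1, hC1, h1⟩ := near (d := d) hσ E hp0
  obtain ⟨C2, hC2, h2⟩ := ratio (d := d) hσ E hp0
  set A : ℝ := 12 * d * (C1 + C2) + 81 * C2 with hA
  have hA0 : 0 ≤ A := by positivity
  refine ⟨A ^ (4 * d), fun R n c t hn hc ht => ?_⟩
  set Λ := box (0 : Site d) R with hΛ
  have hrec := recursion (σ := σ) (E := E) hd hC1 hC2 (fun x y hx hy hxy => h1 Λ x y hx hy hxy)
    (fun x u y => h2 Λ x u y) n hn c hc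
  rw [← hA] at hrec
  have hint : ∫⁻ V, (Sx Λ E c n V) ^ ((4 * d : ℕ) : ℝ) ∂(PL (gl σ) Λ) ≤
      (ENNReal.ofReal (A * n)) ^ ((4 * d : ℕ) : ℝ) := by
    rw [← Nn_rpow hp0]
    exact ENNReal.rpow_le_rpow hrec hp0.le
  have hsub : {V : Site d → ℝ | ∃ s ∈ box c n, |gr V Λ E c s| < Real.exp (-t)} ⊆
      {V | (ENNReal.ofReal t) ^ ((4 * d : ℕ) : ℝ) ≤ (Sx Λ E c n V) ^ ((4 * d : ℕ) : ℝ)} := by
    rintro V ⟨s, hs, hlt⟩
    rw [Set.mem_ofPred_eq]
    apply ENNReal.rpow_le_rpow _ hp0.le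
    refine le_trans ?_ (Finset.le_sup (f := fun s => Dp (gr V Λ E c s)) hs)
    unfold Dp
    split_ifs with h0
    · exact le_top
    · apply ENNReal.ofReal_le_ofReal
      have h3 : 0 < |gr V Λ E c s| := abs_pos.2 h0
      have h4 := Real.log_lt_log h3 hlt
      rw [Real.log_exp] at h4
      linarith
  have ht0 : (ENNReal.ofReal t) ^ ((4 * d : ℕ) : ℝ) ≠ 0 := by
    rw [ENNReal.ofReal_rpow_of_pos ht, Ne, ENNReal.ofReal_eq_zero, not_le]
    positivity
  have htt : (ENNReal.ofReal t) ^ ((4 * d : ℕ) : ℝ) ≠ ∞ := by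
    rw [ENNReal.ofReal_rpow_of_pos ht]
    exact ENNReal.ofReal_ne_top
  calc PL (gl σ) Λ {V | ∃ s ∈ box c n, |gr V Λ E c s| < Real.exp (-t)}
      ≤ PL (gl σ) Λ {V | (ENNReal.ofReal t) ^ ((4 * d : ℕ) : ℝ) ≤
          (Sx Λ E c n V) ^ ((4 * d : ℕ) : ℝ)} := measure_mono hsub
    _ ≤ (∫⁻ V, (Sx Λ E c n V) ^ ((4 * d : ℕ) : ℝ) ∂(PL (gl σ) Λ)) /
          (ENNReal.ofReal t) ^ ((4 * d : ℕ) : ℝ) :=
        meas_ge_le_lintegral_div ((measurable_Sx Λ E c n).pow_const _).aemeasurable ht0 htt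
    _ ≤ (ENNReal.ofReal (A * n)) ^ ((4 * d : ℕ) : ℝ) /
          (ENNReal.ofReal t) ^ ((4 * d : ℕ) : ℝ) := by gcongr
    _ = _ := by
        rw [ENNReal.ofReal_rpow_of_nonneg (by positivity) hp0.le, ENNReal.ofReal_rpow_of_pos ht,
          ← ENNReal.ofReal_div_of_pos (by positivity), Real.rpow_natCast, Real.rpow_natCast,
          div_pow, mul_pow]
        congr 1
        ring

end Pool.Agent.LY
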