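import Pool.Agent.Helper54_LY.Box

/-!
# The negative moments of the Green function at neighbouring sites, and the one site inequality
-/

set_option autoImplicit false
set_option linter.unusedSectionVars false

open scoped InnerProductSpace ComplexConjugate Topology ENNReal
open MeasureTheory Filter

noncomputable section

namespace Pool.Agent.LY

open Pool.Agent.Anderson Pool.Agent.Loc Pool.Agent.Mob Pool.Agent.Helper54.Bal

variable {d : ℕ}

theorem one_le_hop {x y : Site d} (h : hop x y ≠ 0) : 1 ≤ hop x y := by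
  unfold hop at h ⊢
  by_contra hc
  push Not at hc
  apply h
  apply Finset.sum_eq_zero
  intro i hi
  by_contra hne
  have h1 : (1 : ℝ) ≤ (if y = x + Pi.single i 1 then (1 : ℝ) else 0) +
      (if y = x - Pi.single i 1 then (1 : ℝ) else 0) := by
    split_ifs at hne ⊢ with h2 h3 h3
    · norm_num
    · norm_num
    · norm_num
    · simp at hne
  have h2 := Finset.single_le_sum (f := fun i => (if y = x + Pi.single i 1 then (1 : ℝ) else 0) +
    (if y = x - Pi.single i 1 then (1 : ℝ) else 0)) (fun j _ => by positivity) hi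
  exact absurd (h1.trans h2) (not_le.2 hc)

section det

variable {Λ : Finset (Site d)} {W : Λ → ℂ} {K : Kern Λ} (h : Ker (hopL Λ) W K) {M : ℝ}
include h

theorem hop_sum_le (s : Λ) {b : ℝ} (hb : 0 ≤ b) {y : Λ} (hK : ∀ t : Λ, hop (s : Site d) t ≠ 0 → ‖K t y‖ ≤ b) :
    ‖hopL Λ (fun t => K t y) s‖ ≤ 2 * d * b := by
  rw [hopL_apply]
  calc ‖∑ t : Λ, (hop (s : Site d) t : ℂ) * K t y‖ ≤ ∑ t : Λ, hop (s : Site d) t * b := by
        refine norm_sum_le_of_le _ fun t _ => ?_
        rw [norm_mul, Complex.norm_real, Real.norm_of_nonneg (hop_nonneg _ _)]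
        by_cases h0 : hop (s : Site d) t = 0
        · rw [h0]; simp
        · exact mul_le_mul_of_nonneg_left (hK t h0) (hop_nonneg _ _)
    _ = (∑ t ∈ Λ, hop (s : Site d) t) * b := by
        rw [← Finset.sum_mul, Finset.sum_coe_sort Λ (fun t => hop (s : Site d) t)]
    _ ≤ _ := mul_le_mul_of_nonneg_right (sum_hop_le _ _) hb

/-- lower bound if the potential is `- i M` near `x` -/
theorem lower (hM : 32 * (d : ℝ) ^ 2 + 4 ≤ M) {x y : Λ}
    (hxy : x = y ∨ hop (x : Site d) y ≠ 0)
    (hW : ∀ t : Λ, sd (x : Site d) t ≤ 2 → (W t).im ≤ -M ∧ ‖W t‖ ≤ 2 * M) :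
    1 / (16 * M ^ 2) ≤ ‖K x y‖ := by
  have hM0 : 0 < M := by
    have : 0 ≤ 32 * (d : ℝ) ^ 2 := by positivity
    linarith
  have hM1 : 1 ≤ M := by
    have : 0 ≤ 32 * (d : ℝ) ^ 2 := by positivity
    linarith
  have hd0 : (0 : ℝ) ≤ d := Nat.cast_nonneg d
  have h2d : 2 * (d : ℝ) / M ≤ 1 / 2 := by
    rw [div_le_iff₀ hM0]
    nlinarith [sq_nonneg ((d : ℝ) - 1)]
  have hxy1 : sd (x : Site d) y ≤ 1 := by
    rcases hxy with rfl | h1
    · rw [sd_self]; norm_num
    · exact sd_of_hop h1
  have hnW : ∀ t : Λ, sd (x : Site d) t ≤ 2 → M ≤ ‖W t‖ := by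
    intro t ht
    have h1 := (hW t ht).1
    have h2 := Complex.abs_im_le_norm (W t)
    have h3 : M ≤ |(W t).im| := by
      rw [abs_of_nonpos (by linarith)]
      linarith
    linarith
  -- upper bounds
  have hyy : ‖K y y‖ ≤ 1 / M := by
    have h1 := h.col y {y}
    rw [Finset.sum_singleton] at h1
    have h2 := (hW y (hxy1.trans (by norm_num))).1
    have h3 : (K y y).im ≤ ‖K y y‖ := (le_abs_self _).trans (Complex.abs_im_le_norm _)
    have h4 : M * ‖K y y‖ ^ 2 ≤ ‖K y y‖ := by
      have : M * ‖K y y‖ ^ 2 ≤ -(W y).im * ‖K y y‖ ^ 2 :=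
        mul_le_mul_of_nonneg_right (by linarith) (by positivity)
      linarith
    have h5 : 0 < ‖K y y‖ := norm_pos_iff.2 (h.ne_zero y)
    rw [le_div_iff₀ hM0]
    have h6 : M * ‖K y y‖ * ‖K y y‖ ≤ 1 * ‖K y y‖ := by nlinarith
    have := le_of_mul_le_mul_right h6 h5
    linarith
  have hup : ∀ t : Λ, sd (x : Site d) t ≤ 2 → ‖K t y‖ ≤ 1 / M := by
    intro t ht
    have h1 := h.col y {t}
    rw [Finset.sum_singleton] at h1
    have h2 := (hW t ht).1
    have h3 : (K y y).im ≤ ‖K y y‖ := (le_abs_self _).trans (Complex.abs_im_le_norm _)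
    have h4 : M * ‖K t y‖ ^ 2 ≤ 1 / M := by
      have : M * ‖K t y‖ ^ 2 ≤ -(W t).im * ‖K t y‖ ^ 2 :=
        mul_le_mul_of_nonneg_right (by linarith) (by positivity)
      linarith
    have h5 : ‖K t y‖ ^ 2 ≤ (1 / M) ^ 2 := by
      rw [div_pow, one_pow, le_div_iff₀ (by positivity)]
      rw [le_div_iff₀ hM0] at h4
      nlinarith
    exact (pow_le_pow_iff_left₀ (norm_nonneg _) (by positivity) two_ne_zero).1 h5
  have hnb : ∀ s : Λ, sd (x : Site d) s ≤ 1 → ‖hopL Λ (fun t => K t y) s‖ ≤ 2 * d / M := by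
    intro s hs
    have h1 := hop_sum_le h s (b := 1 / M) (by positivity) (y := y) (fun t ht => by
      apply hup
      have h2 := sd_of_hop ht
      have h3 := sd_triangle (x : Site d) s t
      omega)
    calc _ ≤ 2 * d * (1 / M) := h1
      _ = _ := by ring
  -- the diagonal element
  have hdiag : 1 / (4 * M) ≤ ‖K y y‖ := by
    have h1 := h.eqn y y
    rw [if_pos rfl] at h1
    have h2 := hnb y hxy1
    have h3 : W y * K y y = 1 - hopL Λ (fun t => K t y) y := by linear_combination h1
    have h4 : 1 / 2 ≤ ‖W y * K y y‖ := by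
      rw [h3]
      have h5 := norm_sub_norm_le (1 : ℂ) (hopL Λ (fun t => K t y) y)
      rw [norm_one] at h5
      linarith
    rw [norm_mul] at h4
    have h6 := (hW y (hxy1.trans (by norm_num))).2
    have h7 : 1 / 2 ≤ 2 * M * ‖K y y‖ := h4.trans (mul_le_mul_of_nonneg_right h6 (norm_nonneg _))
    rw [div_le_iff₀ (by positivity)]
    nlinarith
  have hfin : 1 / (16 * M ^ 2) ≤ 1 / (4 * M) := by
    apply one_div_le_one_div_of_le (by positivity)
    nlinarith
  rcases hxy with rfl | hne
  · exact hfin.trans hdiag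
  · by_cases hxye : x = y
    · subst hxye
      exact hfin.trans hdiag
    have hoff : ∀ s : Λ, hop (x : Site d) s ≠ 0 → s ≠ y → ‖K s y‖ ≤ 2 * d / M ^ 2 := by
      intro s hs hsy
      have h1 := h.eqn s y
      rw [if_neg hsy] at h1
      have h2 := hnb s (sd_of_hop hs)
      have h3 : ‖W s * K s y‖ ≤ 2 * d / M := by
        have : W s * K s y = -hopL Λ (fun t => K t y) s := by linear_combination h1
        rw [this, norm_neg]
        exact h2
      rw [norm_mul] at h3
      have h4 := hnW s ((sd_of_hop hs).trans (by norm_num))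
      have h5 : M * ‖K s y‖ ≤ 2 * d / M :=
        (mul_le_mul_of_nonneg_right h4 (norm_nonneg _)).trans h3
      rw [le_div_iff₀ (by positivity)]
      rw [le_div_iff₀ hM0] at h5
      nlinarith
    have h1 := h.eqn x y
    rw [if_neg hxye, hopL_apply] at h1
    rw [← Finset.add_sum_erase _ _ (Finset.mem_univ y)] at h1
    set S : ℂ := ∑ t ∈ Finset.univ.erase y, (hop (x : Site d) t : ℂ) * K t y with hS
    have hSle : ‖S‖ ≤ 2 * d * (2 * d / M ^ 2) := by
      calc ‖S‖ ≤ ∑ t ∈ (Finset.univ : Finset Λ).erase y, hop (x : Site d) t * (2 * d / M ^ 2) := by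
            refine norm_sum_le_of_le _ fun t ht => ?_
            rw [norm_mul, Complex.norm_real, Real.norm_of_nonneg (hop_nonneg _ _)]
            by_cases h0 : hop (x : Site d) t = 0
            · rw [h0]; simp
            · exact mul_le_mul_of_nonneg_left (hoff t h0 (Finset.ne_of_mem_erase ht))
                (hop_nonneg _ _)
        _ ≤ ∑ t : Λ, hop (x : Site d) t * (2 * d / M ^ 2) := by
            apply Finset.sum_le_sum_of_subset_of_nonneg (Finset.erase_subset _ _)
            intro t _ _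
            have := hop_nonneg (x : Site d) t
            positivity
        _ = (∑ t ∈ Λ, hop (x : Site d) t) * (2 * d / M ^ 2) := by
            rw [← Finset.sum_mul, Finset.sum_coe_sort Λ (fun t => hop (x : Site d) t)]
        _ ≤ _ := mul_le_mul_of_nonneg_right (sum_hop_le _ _) (by positivity)
    have h2 : W x * K x y = -((hop (x : Site d) y : ℂ) * K y y) - S := by linear_combination h1
    have h3 : 1 / (8 * M) ≤ ‖W x * K x y‖ := by
      rw [h2]
      have h4 := norm_sub_norm_le (-((hop (x : Site d) y : ℂ) * K y y)) S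
      rw [norm_neg, norm_mul, Complex.norm_real, Real.norm_of_nonneg (hop_nonneg _ _)] at h4
      have h5 : 1 / (4 * M) ≤ hop (x : Site d) y * ‖K y y‖ := by
        have := one_le_hop hne
        nlinarith [norm_nonneg (K y y)]
      have h6 : 2 * (d : ℝ) * (2 * d / M ^ 2) ≤ 1 / (8 * M) := by
        rw [mul_div_assoc', div_le_div_iff₀ (by positivity) (by positivity)]
        nlinarith
      have h7 : 1 / (4 * M) = 1 / (8 * M) + 1 / (8 * M) := by
        field_simp
        norm_num
      linarith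
    rw [norm_mul] at h3
    have h8 := (hW x (by rw [sd_self]; norm_num)).2
    have h9 : 1 / (8 * M) ≤ 2 * M * ‖K x y‖ := h3.trans
      (mul_le_mul_of_nonneg_right h8 (norm_nonneg _))
    rw [div_le_iff₀ (by positivity)] at h9 ⊢
    nlinarith

end det

/-- the constant -/
def Clow (d : ℕ) (ν : Measure ℝ) (ρ M : ℝ) : ℝ≥0∞ :=
  (CC ν ρ M) ^ (5 ^ d) * (ENNReal.ofReal (1 / (16 * M ^ 2))) ^ (-(1 / 4) : ℝ)

theorem one_le_CC {ν : Measure ℝ} {ρ M : ℝ} (hM : 1 ≤ M) : 1 ≤ CC ν ρ M := by
  unfold CC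
  have h1 : (1 : ℝ≥0∞) ≤ ENNReal.ofReal M := by
    rw [← ENNReal.ofReal_one]
    exact ENNReal.ofReal_le_ofReal hM
  have h2 : (1 : ℝ≥0∞) ≤ 2 + mom1 ν + ENNReal.ofReal (1 + 2 * ρ) := by
    calc (1 : ℝ≥0∞) ≤ 2 := by norm_num
      _ ≤ 2 + (mom1 ν + ENNReal.ofReal (1 + 2 * ρ)) := le_self_add
      _ = _ := by rw [add_assoc]
  calc (1 : ℝ≥0∞) = 1 * 1 := (one_mul 1).symm
    _ ≤ _ := mul_le_mul' h1 h2

section prob

variable {ν : Measure ℝ} [IsProbabilityMeasure ν] {ρ : ℝ}

/-- complex energy, all other potentials fixed -/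
theorem low_marg (hν : BddDens ν ρ) {M : ℝ} (hM : 32 * (d : ℝ) ^ 2 + 4 ≤ M) (Λ : Finset (Site d))
    {z : ℂ} (hz : 0 < z.im) (hzM : ‖z‖ ≤ M) {x y : Λ}
    (hxy : x = y ∨ hop (x : Site d) y ≠ 0) :
    ∃ S ⊆ Λ, ∀ V, (∫⋯∫⁻_S, (fun V => (en (KB Λ z V x y)) ^ (-(1 / 4) : ℝ)) ∂(fun _ => ν)) V ≤
      Clow d ν ρ M := by
  classical
  have hM1 : 1 ≤ M := by
    have : 0 ≤ 32 * (d : ℝ) ^ 2 := by positivity
    linarith
  set B : Finset Λ := Finset.univ.filter fun t => sd (x : Site d) t ≤ 2 with hB
  refine ⟨B.image fun i : Λ => (i : Site d), ?_, fun V => ?_⟩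
  · intro s hs
    obtain ⟨i, _, rfl⟩ := Finset.mem_image.1 hs
    exact i.2
  have hcard : B.card ≤ 5 ^ d := by
    have h1 : (B.image fun i : Λ => (i : Site d)).card = B.card :=
      Finset.card_image_of_injective _ Subtype.val_injective
    have h2 : (B.image fun i : Λ => (i : Site d)) ⊆ box (x : Site d) 2 := by
      intro s hs
      obtain ⟨i, hi, rfl⟩ := Finset.mem_image.1 hs
      rw [mem_box]
      exact (Finset.mem_filter.1 hi).2
    have h3 := Finset.card_le_card h2
    rw [h1, card_box] at h3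
    exact h3
  have h := (fam_KB Λ hz).neg_many hν hM1 (x := x) (y := y)
    (b := (ENNReal.ofReal (1 / (16 * M ^ 2))) ^ (-(1 / 4) : ℝ)) (B := B) ?_ V
  · refine h.trans ?_
    unfold Clow
    gcongr
    exact one_le_CC hM1
  · intro l hl hlB V
    have hk := (fam_KB Λ hz).ker_KL (M := M) (by linarith) hl V
    have hlow := lower hk hM hxy (fun t ht => by
      have htl : t ∈ l := (hlB t).2 (Finset.mem_filter.2 ⟨Finset.mem_univ _, ht⟩)
      simp only [if_pos htl]
      constructor
      · simp only [Complex.sub_im, Complex.neg_im, Complex.mul_im, Complex.ofReal_re,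
          Complex.I_im, Complex.ofReal_im, Complex.I_re]
        linarith
      · refine (norm_sub_le _ _).trans ?_
        rw [norm_neg, norm_mul, Complex.norm_I, Complex.norm_real,
          Real.norm_of_nonneg (by linarith)]
        linarith)
    rw [ENNReal.rpow_neg, ENNReal.rpow_neg]
    apply ENNReal.inv_le_inv.2
    apply ENNReal.rpow_le_rpow _ (by norm_num)
    exact ENNReal.ofReal_le_ofReal hlow

/-- LOW: the negative moment of the Green function at neighbouring sites (or at the same site) of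
a finite set. -/
theorem low (hν : BddDens ν ρ) {M : ℝ} (hM : 32 * (d : ℝ) ^ 2 + 4 ≤ M) (Λ : Finset (Site d))
    {E : ℝ} (hE : |E| + 1 ≤ M) {x y : Site d} (hx : x ∈ Λ) (hy : y ∈ Λ)
    (hxy : x = y ∨ hop x y ≠ 0) :
    ∫⁻ V, (ENNReal.ofReal |gr V Λ E x y|) ^ (-(1 / 4) : ℝ) ∂(PL ν Λ) ≤ Clow d ν ρ M := by
  set e : ℕ → ℝ := fun k => 1 / ((k : ℝ) + 1) with he
  have he0 : Tendsto e atTop (𝓝 0) := tendsto_one_div_add_atTop_nhds_zero_nat
  have hep : ∀ k, 0 < e k := fun k => by rw [he]; positivity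
  have he1 : ∀ k, e k ≤ 1 := fun k => by
    rw [he]
    simp only
    rw [div_le_one (by positivity)]
    have : (0 : ℝ) ≤ k := Nat.cast_nonneg k
    linarith
  set x' : Λ := ⟨x, hx⟩
  set y' : Λ := ⟨y, hy⟩
  have hxy' : x' = y' ∨ hop (x' : Site d) y' ≠ 0 := by
    rcases hxy with rfl | h
    · left; rfl
    · right; exact h
  have hm : ∀ k, Measurable fun V => (en (KB Λ (zz (e k) E) V x' y')) ^ (-(1 / 4) : ℝ) := fun k =>
    ((measurable_KB Λ _ x' y').norm.ennreal_ofReal).pow_const _
  have hae : ∀ᵐ V ∂(PL ν Λ), (RM V Λ E).det ≠ 0 := by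
    rw [ae_iff]
    have : {V : Site d → ℝ | ¬ (RM V Λ E).det ≠ 0} = {V | (RM V Λ E).det = 0} := by
      ext; simp
    rw [this]
    exact PL_det hν Λ Λ le_rfl E
  calc ∫⁻ V, (ENNReal.ofReal |gr V Λ E x y|) ^ (-(1 / 4) : ℝ) ∂(PL ν Λ)
      = ∫⁻ V, liminf (fun k => (en (KB Λ (zz (e k) E) V x' y')) ^ (-(1 / 4) : ℝ)) atTop
          ∂(PL ν Λ) := by
        refine lintegral_congr_ae ?_
        filter_upwards [hae] with V hV
        have h1 := tendsto_KB hV he0 x' y'
        have h2 : Tendsto (fun k => en (KB Λ (zz (e k) E) V x' y')) atTop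
            (𝓝 (en (-(gr V Λ E x y : ℂ)))) :=
          ENNReal.tendsto_ofReal h1.norm
        have h3 := (ENNReal.continuous_rpow_const (y := -(1 / 4))).tendsto _ |>.comp h2
        have h4 : en (-(gr V Λ E x y : ℂ)) = ENNReal.ofReal |gr V Λ E x y| := by
          unfold en
          rw [norm_neg, Complex.norm_real, Real.norm_eq_abs]
        rw [h4] at h3
        exact h3.liminf_eq.symm
    _ ≤ liminf (fun k => ∫⁻ V, (en (KB Λ (zz (e k) E) V x' y')) ^ (-(1 / 4) : ℝ) ∂(PL ν Λ))
          atTop := lintegral_liminf_le hm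
    _ ≤ Clow d ν ρ M := by
        refine liminf_le_of_frequently_le' (Frequently.of_forall fun k => ?_)
        have hz : 0 < (zz (e k) E).im := by rw [zz_im]; exact hep k
        have hzM : ‖zz (e k) E‖ ≤ M := by
          unfold zz
          refine (norm_add_le _ _).trans ?_
          rw [norm_mul, Complex.norm_I, mul_one, Complex.norm_real, Complex.norm_real,
            Real.norm_eq_abs, Real.norm_of_nonneg (hep k).le]
          have := he1 k
          linarith
        obtain ⟨S, hS, hb⟩ := low_marg hν hM Λ hz hzM hxy'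
        exact PL_le_of_marg hS (hm k) hb

/-- complex energy, all other potentials fixed -/
theorem one_marg (hν : BddDens ν ρ) (Λ : Finset (Site d)) {z : ℂ} (hz : 0 < z.im) (u x y : Λ)
    {τ : ℝ} (hτ : 0 < τ) (V : Site d → ℝ) :
    (∫⋯∫⁻_{(u : Site d)}, ({V | τ * ‖KB Λ z V x y‖ < ‖KB Λ z V x u‖ * ‖KB Λ z V u y‖}.indicator
      1) ∂(fun _ => ν)) V ≤ ENNReal.ofReal (8 * ρ / τ) := by
  have hρ := hν.1
  have hf := fam_KB Λ hz
  have hmS : MeasurableSet {V | τ * ‖KB Λ z V x y‖ < ‖KB Λ z V x u‖ * ‖KB Λ z V u y‖} :=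
    measurableSet_lt ((measurable_KB Λ z x y).norm.const_mul _)
      ((measurable_KB Λ z x u).norm.mul (measurable_KB Λ z u y).norm)
  rw [lmarginal_singleton]
  set V' := Function.update V (u : Site d) 0 with hV'
  have hk := hf.ker V'
  have hupd : ∀ v : ℝ, KB Λ z (Function.update V (u : Site d) v) = upk u (v : ℂ) (KB Λ z V') := by
    intro v
    have e := hf.upd V' u v
    rw [hV', Function.update_idem, Function.update_self, Complex.ofReal_zero, sub_zero] at e
    exact e
  set K := KB Λ z V' with hK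
  set a : ℂ := -K x y / (K u u * K x y - K x u * K u y) with ha
  set a' : ℂ := -1 / K u u with ha'
  have hsub : {v : ℝ | τ * ‖upk u (v : ℂ) K x y‖ < ‖upk u (v : ℂ) K x u‖ * ‖upk u (v : ℂ) K u y‖} ⊆
      Set.Icc (a.re - 2 / τ) (a.re + 2 / τ) ∪ Set.Icc (a'.re - 2 / τ) (a'.re + 2 / τ) ∪
        {v : ℝ | upk u (v : ℂ) K x y = 0 ∧ upk u (v : ℂ) K x u ≠ 0 ∧ upk u (v : ℂ) K u y ≠ 0} := by
    intro v hv
    simp only [Set.mem_ofPred_eq] at hv
    by_cases hN : upk u (v : ℂ) K x y = 0
    · right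
      rw [hN, norm_zero, mul_zero] at hv
      refine ⟨hN, fun h0 => ?_, fun h0 => ?_⟩
      · rw [h0, norm_zero, zero_mul] at hv
        exact lt_irrefl _ hv
      · rw [h0, norm_zero, mul_zero] at hv
        exact lt_irrefl _ hv
    left
    have h1 := hk.ratio_le u x y v hN
    rw [← ha, ← ha'] at h1
    have hNp : 0 < ‖upk u (v : ℂ) K x y‖ := norm_pos_iff.2 hN
    have h2 : τ < ‖(v : ℂ) - a‖⁻¹ + ‖(v : ℂ) - a'‖⁻¹ := by
      refine lt_of_lt_of_le ?_ h1
      rw [lt_div_iff₀ hNp]
      exact hv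
    have key : ∀ b : ℂ, τ / 2 < ‖(v : ℂ) - b‖⁻¹ → v ∈ Set.Icc (b.re - 2 / τ) (b.re + 2 / τ) := by
      intro b hb
      have h3 : 0 < ‖(v : ℂ) - b‖ := by
        by_contra hcon
        have h4 : ‖(v : ℂ) - b‖ = 0 := le_antisymm (not_lt.1 hcon) (norm_nonneg _)
        rw [h4, inv_zero] at hb
        linarith
      have h5 : ‖(v : ℂ) - b‖ < 2 / τ := by
        rw [lt_div_iff₀ hτ]
        have h6 : τ / 2 * ‖(v : ℂ) - b‖ < 1 := by
          rw [← one_div, lt_div_iff₀ h3] at hb
          exact hb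
        nlinarith
      have h7 : |v - b.re| ≤ ‖(v : ℂ) - b‖ := by
        have := Complex.abs_re_le_norm ((v : ℂ) - b)
        simpa using this
      have h8 := abs_le.1 (h7.trans h5.le)
      constructor <;> linarith
    by_cases h9 : τ / 2 < ‖(v : ℂ) - a‖⁻¹
    · left; exact key a h9
    · right
      apply key a'
      push Not at h9
      linarith
  have hnull : ν {v : ℝ | upk u (v : ℂ) K x y = 0 ∧ upk u (v : ℂ) K x u ≠ 0 ∧
      upk u (v : ℂ) K u y ≠ 0} = 0 := by
    have hsub2 : {v : ℝ | upk u (v : ℂ) K x y = 0 ∧ upk u (v : ℂ) K x u ≠ 0 ∧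
        upk u (v : ℂ) K u y ≠ 0} ⊆ {a.re} := by
      rintro v ⟨h1, h2, h3⟩
      have hD := hk.den_ne (w := (v : ℂ)) (by simp) u
      rw [upk_eq hD] at h1 h2 h3
      set q := K u u * K x y - K x u * K u y with hq
      have h4 : K x y + v * q = 0 := by
        rcases div_eq_zero_iff.1 h1 with h | h
        · exact h
        · exact absurd h hD
      have h5 : K x u ≠ 0 := by
        intro h0
        apply h2
        rw [h0]; simp
      have h6 : K u y ≠ 0 := by
        intro h0
        apply h3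
        rw [h0]; simp
      have hq0 : q ≠ 0 := by
        intro h0
        rw [h0, mul_zero, add_zero] at h4
        rw [hq, h4, mul_zero, zero_sub, neg_eq_zero] at h0
        rcases mul_eq_zero.1 h0 with h | h
        · exact h5 h
        · exact h6 h
      have h7 : (v : ℂ) = a := by
        rw [ha]
        field_simp
        linear_combination h4
      rw [Set.mem_singleton_iff, ← h7, Complex.ofReal_re]
    exact le_antisymm ((measure_mono hsub2).trans (null_singleton hν _).le) zero_le
  calc ∫⁻ v, ({V | τ * ‖KB Λ z V x y‖ < ‖KB Λ z V x u‖ * ‖KB Λ z V u y‖}.indicator 1 :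
        (Site d → ℝ) → ℝ≥0∞) (Function.update V (u : Site d) v) ∂ν
      = ν {v : ℝ | τ * ‖upk u (v : ℂ) K x y‖ < ‖upk u (v : ℂ) K x u‖ * ‖upk u (v : ℂ) K u y‖} := by
        have hms : MeasurableSet {v : ℝ | τ * ‖upk u (v : ℂ) K x y‖ <
            ‖upk u (v : ℂ) K x u‖ * ‖upk u (v : ℂ) K u y‖} := by
          have hmu : Measurable fun v : ℝ => Function.update V (u : Site d) v :=
            measurable_update V
          have := hmu hmS
          refine (MeasurableSet.congr this ?_)
          ext v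
          simp only [Set.mem_preimage, Set.mem_ofPred_eq, hupd]
        rw [← lintegral_indicator_one hms]
        refine lintegral_congr fun v => ?_
        by_cases hv : τ * ‖upk u (v : ℂ) K x y‖ < ‖upk u (v : ℂ) K x u‖ * ‖upk u (v : ℂ) K u y‖
        · rw [Set.indicator_of_mem (by simpa only [Set.mem_ofPred_eq, hupd] using hv),
            Set.indicator_of_mem (by simpa only [Set.mem_ofPred_eq] using hv)]
          rfl
        · rw [Set.indicator_of_notMem (by simpa only [Set.mem_ofPred_eq, hupd] using hv),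
            Set.indicator_of_notMem (by simpa only [Set.mem_ofPred_eq] using hv)]
    _ ≤ ν (Set.Icc (a.re - 2 / τ) (a.re + 2 / τ)) + ν (Set.Icc (a'.re - 2 / τ) (a'.re + 2 / τ)) +
        0 := by
        refine (measure_mono hsub).trans ((measure_union_le _ _).trans ?_)
        rw [hnull]
        gcongr
        exact measure_union_le _ _
    _ ≤ ENNReal.ofReal (ρ * (4 / τ)) + ENNReal.ofReal (ρ * (4 / τ)) + 0 := by
        gcongr
        · refine (hν.2 _ _).trans (le_of_eq ?_)
          congr 2; ring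
        · refine (hν.2 _ _).trans (le_of_eq ?_)
          congr 2; ring
    _ = _ := by
        rw [add_zero, ← ENNReal.ofReal_add (by positivity) (by positivity)]
        congr 1
        ring

/-- ONE: the one site inequality in a finite set. -/
theorem one (hν : BddDens ν ρ) (Λ : Finset (Site d)) (E : ℝ) (u x y : Site d) {τ : ℝ}
    (hτ : 0 < τ) :
    PL ν Λ {V | τ * |gr V Λ E x y| < |gr V Λ E x u| * |gr V Λ E u y|} ≤
      ENNReal.ofReal (8 * ρ / τ) := by
  by_cases hmem : x ∈ Λ ∧ y ∈ Λ ∧ u ∈ Λ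
  swap
  · have : {V : Site d → ℝ | τ * |gr V Λ E x y| < |gr V Λ E x u| * |gr V Λ E u y|} = ∅ := by
      ext V
      simp only [Set.mem_ofPred_eq, Set.mem_empty_iff_false, iff_false, not_lt]
      have h0 : |gr V Λ E x u| * |gr V Λ E u y| = 0 := by
        by_cases hx : x ∈ Λ
        · by_cases hy : y ∈ Λ
          · have hu : u ∉ Λ := fun hu => hmem ⟨hx, hy, hu⟩
            have : gr V Λ E x u = 0 := by
              unfold gr
              rw [dif_neg (fun h => hu h.2)]
            rw [this]; simp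
          · have : gr V Λ E u y = 0 := by
              unfold gr
              rw [dif_neg (fun h => hy h.2)]
            rw [this]; simp
        · have : gr V Λ E x u = 0 := by
            unfold gr
            rw [dif_neg (fun h => hx h.1)]
          rw [this]; simp
      rw [h0]
      positivity
    rw [this, measure_empty]
    exact zero_le
  obtain ⟨hx, hy, hu⟩ := hmem
  set x' : Λ := ⟨x, hx⟩
  set y' : Λ := ⟨y, hy⟩
  set u' : Λ := ⟨u, hu⟩
  set e : ℕ → ℝ := fun k => 1 / ((k : ℝ) + 1) with he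
  have he0 : Tendsto e atTop (𝓝 0) := tendsto_one_div_add_atTop_nhds_zero_nat
  have hep : ∀ k, 0 < e k := fun k => by rw [he]; positivity
  set S : Set (Site d → ℝ) := {V | τ * |gr V Λ E x y| < |gr V Λ E x u| * |gr V Λ E u y|} with hS
  set T : ℕ → Set (Site d → ℝ) := fun k => {V | τ * ‖KB Λ (zz (e k) E) V x' y'‖ <
    ‖KB Λ (zz (e k) E) V x' u'‖ * ‖KB Λ (zz (e k) E) V u' y'‖} with hT
  have hmS : MeasurableSet S :=
    measurableSet_lt ((measurable_gr Λ E x y).abs.const_mul _)
      ((measurable_gr Λ E x u).abs.mul (measurable_gr Λ E u y).abs)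
  have hmT : ∀ k, MeasurableSet (T k) := fun k =>
    measurableSet_lt ((measurable_KB Λ _ x' y').norm.const_mul _)
      ((measurable_KB Λ _ x' u').norm.mul (measurable_KB Λ _ u' y').norm)
  have hae : ∀ᵐ V ∂(PL ν Λ), (RM V Λ E).det ≠ 0 := by
    rw [ae_iff]
    have : {V : Site d → ℝ | ¬ (RM V Λ E).det ≠ 0} = {V | (RM V Λ E).det = 0} := by
      ext; simp
    rw [this]
    exact PL_det hν Λ Λ le_rfl E
  rw [← lintegral_indicator_one hmS]
  calc ∫⁻ V, S.indicator 1 V ∂(PL ν Λ)
      ≤ ∫⁻ V, liminf (fun k => (T k).indicator 1 V) atTop ∂(PL ν Λ) := by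
        refine lintegral_mono_ae ?_
        filter_upwards [hae] with V hV
        by_cases hVS : V ∈ S
        · have h1 := (tendsto_KB hV he0 x' y').norm
          have h2 := (tendsto_KB hV he0 x' u').norm
          have h3 := (tendsto_KB hV he0 u' y').norm
          have hn : ∀ r : ℝ, ‖(-(r : ℂ))‖ = |r| := fun r => by
            rw [norm_neg, Complex.norm_real, Real.norm_eq_abs]
          rw [hn] at h1 h2 h3
          have h4 : ∀ᶠ k in atTop, V ∈ T k := (h1.const_mul τ).eventually_lt (h2.mul h3) hVS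
          rw [Set.indicator_of_mem hVS]
          refine le_liminf_of_le (by isBoundedDefault) ?_
          filter_upwards [h4] with k hk
          rw [Set.indicator_of_mem hk]
        · rw [Set.indicator_of_notMem hVS]
          exact zero_le
    _ ≤ liminf (fun k => ∫⁻ V, (T k).indicator 1 V ∂(PL ν Λ)) atTop :=
        lintegral_liminf_le fun k => measurable_one.indicator (hmT k)
    _ ≤ _ := by
        refine liminf_le_of_frequently_le' (Frequently.of_forall fun k => ?_)
        have hz : 0 < (zz (e k) E).im := by rw [zz_im]; exact hep k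
        refine PL_le_of_marg (S := {u}) (by simpa using hu) (measurable_one.indicator (hmT k)) ?_
        intro V
        exact one_marg hν Λ hz u' x' y' hτ V

end prob

end Pool.Agent.LY
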