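import Pool.Agent.Helper54_LY.Ker
import Pool.Agent.Helper48_Loc.GaussLaw

/-!
# Integrals over one potential
-/

set_option autoImplicit false
set_option linter.unusedSectionVars false

open scoped InnerProductSpace ComplexConjugate Topology ENNReal
open MeasureTheory Filter

noncomputable section

namespace Pool.Agent.LY

open Pool.Agent.Loc

/-- the norm as an extended nonnegative number -/
abbrev en (z : ℂ) : ℝ≥0∞ := ENNReal.ofReal ‖z‖

/-- the first moment -/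
def mom1 (ν : Measure ℝ) : ℝ≥0∞ := ∫⁻ v, ENNReal.ofReal |v| ∂ν

section one

variable {ν : Measure ℝ} [IsProbabilityMeasure ν] {ρ : ℝ}

theorem null_singleton (hν : BddDens ν ρ) (a : ℝ) : ν {a} = 0 := by
  have h := hν.2 a a
  rw [Set.Icc_self, sub_self, mul_zero, ENNReal.ofReal_zero] at h
  exact le_antisymm h zero_le

theorem measurable_inv_sub (a : ℂ) : Measurable fun v : ℝ => ‖(v : ℂ) - a‖⁻¹ := by
  have h1 : Continuous fun v : ℝ => ‖(v : ℂ) - a‖ := by fun_prop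
  exact h1.measurable.inv

/-- the fractional moment of `1/|v - a|` -/
theorem lint_sqrt_le (hν : BddDens ν ρ) (a : ℂ) :
    ∫⁻ v : ℝ, ENNReal.ofReal (√(‖(v : ℂ) - a‖⁻¹)) ∂ν ≤ ENNReal.ofReal (1 + 2 * ρ) := by
  have hρ := hν.1
  have hw : ∀ τ : ℝ, 0 < τ → ν {v : ℝ | τ < |‖(v : ℂ) - a‖⁻¹|} ≤ ENNReal.ofReal (2 * ρ / τ) := by
    intro τ hτ
    have hsub : {v : ℝ | τ < |‖(v : ℂ) - a‖⁻¹|} ⊆ Set.Icc (a.re - 1 / τ) (a.re + 1 / τ) := by
      intro v hv
      simp only [Set.mem_ofPred_eq] at hv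
      rw [abs_of_nonneg (by positivity)] at hv
      have h1 : 0 < ‖(v : ℂ) - a‖ := by
        by_contra hcon
        have h2 : ‖(v : ℂ) - a‖ = 0 := le_antisymm (not_lt.1 hcon) (norm_nonneg _)
        rw [h2, inv_zero] at hv
        linarith
      have h3 : ‖(v : ℂ) - a‖ < 1 / τ := by
        rw [lt_div_iff₀ hτ]
        have := (lt_inv_comm₀ hτ h1).1 hv
        rw [← one_div, lt_div_iff₀ hτ] at this
        exact this
      have h4 : |v - a.re| ≤ ‖(v : ℂ) - a‖ := by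
        have := Complex.abs_re_le_norm ((v : ℂ) - a)
        simpa using this
      have h5 := abs_le.1 (h4.trans h3.le)
      constructor <;> linarith
    refine (measure_mono hsub).trans ((hν.2 _ _).trans (le_of_eq ?_))
    congr 1
    ring
  have h := weak_sqrt (measurable_inv_sub a) (B := Set.univ) (c := 2 * ρ) (by positivity) hw
    (a := 1) one_pos
  rw [Measure.restrict_univ, measure_univ, mul_one, div_one,
    ← ENNReal.ofReal_add (by norm_num) (by positivity)] at h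
  refine le_trans (le_of_eq ?_) h
  refine lintegral_congr fun v => ?_
  rw [abs_of_nonneg (by positivity)]

/-- the weight in the comparison of `v` with `- i M` -/
def wt (M : ℝ) (a : ℂ) (v : ℝ) : ℝ := (1 + |v| / M) * (1 + (|v| + M) * ‖(v : ℂ) - a‖⁻¹)

theorem one_le_wt {M : ℝ} (hM : 1 ≤ M) (a : ℂ) (v : ℝ) : 1 ≤ wt M a v := by
  unfold wt
  have h1 : 1 ≤ 1 + |v| / M := by
    have : 0 ≤ |v| / M := by positivity
    linarith
  have h2 : 1 ≤ 1 + (|v| + M) * ‖(v : ℂ) - a‖⁻¹ := by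
    have : 0 ≤ (|v| + M) * ‖(v : ℂ) - a‖⁻¹ := by positivity
    linarith
  nlinarith

theorem wt_rpow_le {M : ℝ} (hM : 1 ≤ M) (a : ℂ) (v : ℝ) :
    (wt M a v) ^ (1 / 4 : ℝ) ≤ M * (2 + |v| + √(‖(v : ℂ) - a‖⁻¹)) := by
  set g := ‖(v : ℂ) - a‖⁻¹ with hg
  have hg0 : 0 ≤ g := by positivity
  have hv0 : 0 ≤ |v| := abs_nonneg v
  set s := √g with hs
  have hs0 : 0 ≤ s := Real.sqrt_nonneg _
  have hs2 : s ^ 2 = g := Real.sq_sqrt hg0
  have h0 : 0 ≤ wt M a v := zero_le_one.trans (one_le_wt hM a v)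
  have key : wt M a v ≤ (M * (2 + |v| + s)) ^ 4 := by
    have h1 : wt M a v ≤ M * (1 + |v|) ^ 2 * (1 + g) := by
      unfold wt
      rw [← hg]
      have e1 : 1 + |v| / M ≤ 1 + |v| := by
        have : |v| / M ≤ |v| := div_le_self hv0 hM
        linarith
      have e2 : 1 + (|v| + M) * g ≤ M * (1 + |v|) * (1 + g) := by
        have k1 : |v| + M ≤ M * (1 + |v|) := by nlinarith
        have k2 : (|v| + M) * g ≤ M * (1 + |v|) * g := mul_le_mul_of_nonneg_right k1 hg0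
        have k3 : 1 ≤ M * (1 + |v|) := by nlinarith
        nlinarith
      calc (1 + |v| / M) * (1 + (|v| + M) * g) ≤ (1 + |v|) * (M * (1 + |v|) * (1 + g)) := by
            apply mul_le_mul e1 e2 (by positivity) (by positivity)
        _ = _ := by ring
    have h2 : 1 + g ≤ (2 + |v| + s) ^ 2 := by
      rw [← hs2]
      nlinarith
    have h3 : (1 + |v|) ^ 2 ≤ (2 + |v| + s) ^ 2 := by
      apply pow_le_pow_left₀ (by positivity)
      linarith
    have h4 : M ≤ M ^ 4 := by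
      calc M = M ^ 1 := (pow_one M).symm
        _ ≤ M ^ 4 := pow_le_pow_right₀ hM (by norm_num)
    calc wt M a v ≤ M * (1 + |v|) ^ 2 * (1 + g) := h1
      _ ≤ M ^ 4 * (2 + |v| + s) ^ 2 * (2 + |v| + s) ^ 2 := by
          apply mul_le_mul _ h2 (by positivity) (by positivity)
          exact mul_le_mul h4 h3 (by positivity) (by positivity)
      _ = _ := by ring
  calc (wt M a v) ^ (1 / 4 : ℝ) ≤ ((M * (2 + |v| + s)) ^ 4) ^ (1 / 4 : ℝ) :=
        Real.rpow_le_rpow h0 key (by norm_num)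
    _ = _ := by
        have h5 : 0 ≤ M * (2 + |v| + s) := by positivity
        rw [← Real.rpow_natCast, ← Real.rpow_mul h5]
        norm_num

/-- the constant of the one site comparison -/
def CC (ν : Measure ℝ) (ρ M : ℝ) : ℝ≥0∞ :=
  ENNReal.ofReal M * (2 + mom1 ν + ENNReal.ofReal (1 + 2 * ρ))

theorem lint_wt_le (hν : BddDens ν ρ) {M : ℝ} (hM : 1 ≤ M) (a : ℂ) :
    ∫⁻ v, ENNReal.ofReal ((wt M a v) ^ (1 / 4 : ℝ)) ∂ν ≤ CC ν ρ M := by
  have hs : Measurable fun v : ℝ => ENNReal.ofReal (√(‖(v : ℂ) - a‖⁻¹)) :=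
    ((measurable_inv_sub a).sqrt).ennreal_ofReal
  have hm : Measurable fun v : ℝ => ENNReal.ofReal |v| := by fun_prop
  calc ∫⁻ v, ENNReal.ofReal ((wt M a v) ^ (1 / 4 : ℝ)) ∂ν
      ≤ ∫⁻ v, ENNReal.ofReal M * (2 + ENNReal.ofReal |v| +
          ENNReal.ofReal (√(‖(v : ℂ) - a‖⁻¹))) ∂ν := by
        refine lintegral_mono fun v => ?_
        refine (ENNReal.ofReal_le_ofReal (wt_rpow_le hM a v)).trans (le_of_eq ?_)
        rw [ENNReal.ofReal_mul (by linarith), ENNReal.ofReal_add (by positivity) (by positivity),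
          ENNReal.ofReal_add (by norm_num) (by positivity), ENNReal.ofReal_ofNat]
    _ = ENNReal.ofReal M * (2 + mom1 ν + ∫⁻ v : ℝ, ENNReal.ofReal (√(‖(v : ℂ) - a‖⁻¹)) ∂ν) := by
        rw [lintegral_const_mul' _ _ ENNReal.ofReal_ne_top, lintegral_add_right _ hs,
          lintegral_add_right _ hm, lintegral_const, measure_univ, mul_one]
        rfl
    _ ≤ _ := by
        unfold CC
        gcongr
        exact lint_sqrt_le hν a

/-- from a pointwise comparison to the negative moments -/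
theorem neg_moment (hν : BddDens ν ρ) {M : ℝ} (hM : 1 ≤ M) (a : ℂ) {F : ℝ → ℂ} {F₀ : ℂ}
    (h : ∀ᵐ v ∂ν, ‖F₀‖ ≤ ‖F v‖ * wt M a v) :
    ∫⁻ v, (en (F v)) ^ (-(1 / 4) : ℝ) ∂ν ≤ CC ν ρ M * (en F₀) ^ (-(1 / 4) : ℝ) := by
  have h1 : ∀ᵐ v ∂ν, (en (F v)) ^ (-(1 / 4) : ℝ) ≤
      ENNReal.ofReal ((wt M a v) ^ (1 / 4 : ℝ)) * (en F₀) ^ (-(1 / 4) : ℝ) := by
    filter_upwards [h] with v hv
    have hw := one_le_wt hM a v
    have hw0 : 0 < wt M a v := by linarith
    have h2 : en F₀ ≤ en (F v) * ENNReal.ofReal (wt M a v) := by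
      unfold en
      rw [← ENNReal.ofReal_mul (norm_nonneg _)]
      exact ENNReal.ofReal_le_ofReal hv
    have h3 : (en F₀) ^ (1 / 4 : ℝ) ≤ (en (F v)) ^ (1 / 4 : ℝ) *
        ENNReal.ofReal ((wt M a v) ^ (1 / 4 : ℝ)) := by
      have := ENNReal.rpow_le_rpow h2 (by norm_num : (0 : ℝ) ≤ 1 / 4)
      rw [ENNReal.mul_rpow_of_nonneg _ _ (by norm_num),
        ENNReal.ofReal_rpow_of_pos hw0] at this
      exact this
    rw [ENNReal.rpow_neg, ENNReal.rpow_neg]
    have hr0 : ENNReal.ofReal ((wt M a v) ^ (1 / 4 : ℝ)) ≠ 0 := by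
      rw [Ne, ENNReal.ofReal_eq_zero, not_le]
      positivity
    have hrt : ENNReal.ofReal ((wt M a v) ^ (1 / 4 : ℝ)) ≠ ∞ := ENNReal.ofReal_ne_top
    have h4 := ENNReal.inv_le_inv.2 h3
    rw [ENNReal.mul_inv (Or.inr hrt) (Or.inr hr0)] at h4
    calc ((en (F v)) ^ (1 / 4 : ℝ))⁻¹ = ENNReal.ofReal ((wt M a v) ^ (1 / 4 : ℝ)) *
          (((en (F v)) ^ (1 / 4 : ℝ))⁻¹ * (ENNReal.ofReal ((wt M a v) ^ (1 / 4 : ℝ)))⁻¹) := by
          rw [mul_comm _ (((en (F v)) ^ (1 / 4 : ℝ))⁻¹ * _), mul_assoc,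
            ENNReal.inv_mul_cancel hr0 hrt, mul_one]
      _ ≤ _ := by gcongr
  calc _ ≤ ∫⁻ v, ENNReal.ofReal ((wt M a v) ^ (1 / 4 : ℝ)) * (en F₀) ^ (-(1 / 4) : ℝ) ∂ν :=
        lintegral_mono_ae h1
    _ ≤ _ := by
        have hmw : Measurable fun v => ENNReal.ofReal ((wt M a v) ^ (1 / 4 : ℝ)) := by
          have : Measurable fun v => wt M a v := by
            unfold wt
            have := measurable_inv_sub a
            fun_prop
          fun_prop
        rw [lintegral_mul_const _ hmw]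
        gcongr
        exact lint_wt_le hν hM a

end one

end Pool.Agent.LY
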