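import Pool.Agent.Helper54_LY.Fam
import Pool.Agent.Helper11_Mob.Gzb

/-!
# The kernels in a finite set
-/

set_option autoImplicit false
set_option linter.unusedSectionVars false

open scoped InnerProductSpace ComplexConjugate Topology ENNReal
open MeasureTheory Filter

noncomputable section

namespace Pool.Agent.LY

open Pool.Agent.Anderson Pool.Agent.Loc Pool.Agent.Mob Pool.Agent.Helper54.Bal

variable {d : ℕ}

/-- the hopping matrix of the finite set `Λ` -/
def hopM (Λ : Finset (Site d)) : Matrix Λ Λ ℂ := Matrix.of fun x y => (hop (x : Site d) y : ℂ)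

/-- the hopping operator of the finite set `Λ` -/
def hopL (Λ : Finset (Site d)) : (Λ → ℂ) →ₗ[ℂ] (Λ → ℂ) := (hopM Λ).mulVecLin

theorem hopL_apply (Λ : Finset (Site d)) (f : Λ → ℂ) (x : Λ) :
    hopL Λ f x = ∑ t : Λ, (hop (x : Site d) t : ℂ) * f t := rfl

/-- `(H_Λ - z)⁻¹` on the finite set `Λ` -/
def KB (Λ : Finset (Site d)) (z : ℂ) (V : Site d → ℝ) : Kern Λ :=
  fun x y => -(z • (1 : Matrix Λ Λ ℂ) - HC V Λ)⁻¹ x y

theorem det_ne_KB (Λ : Finset (Site d)) {z : ℂ} (hz : z.im ≠ 0) (V : Site d → ℝ) :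
    (z • (1 : Matrix Λ Λ ℂ) - HC V Λ).det ≠ 0 :=
  ((H11.gzb d V Λ 0 0).2.1 z hz).1

theorem KB_eq_gz (Λ : Finset (Site d)) (z : ℂ) (V : Site d → ℝ) (x y : Λ) :
    KB Λ z V x y = -gz V Λ z x y := by
  unfold KB gz
  rw [dif_pos ⟨x.2, y.2⟩]

theorem R_apply (Λ : Finset (Site d)) (z : ℂ) (V : Site d → ℝ) (x t : Λ) :
    (z • (1 : Matrix Λ Λ ℂ) - HC V Λ) x t =
      -((hop (x : Site d) t : ℂ) + (if x = t then (V x : ℂ) - z else 0)) := by
  simp only [HC, HM, Matrix.sub_apply, Matrix.smul_apply, smul_eq_mul, Matrix.map_apply,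
    Matrix.of_apply, Matrix.one_apply]
  split_ifs with h
  · push_cast; ring
  · push_cast; ring

theorem KB_eqn (Λ : Finset (Site d)) {z : ℂ} (hz : z.im ≠ 0) (V : Site d → ℝ) (x y : Λ) :
    hopL Λ (fun t => KB Λ z V t y) x + ((V x : ℂ) - z) * KB Λ z V x y = if x = y then 1 else 0 := by
  have h1 := Matrix.mul_nonsing_inv (z • (1 : Matrix Λ Λ ℂ) - HC V Λ)
    (isUnit_iff_ne_zero.2 (det_ne_KB Λ hz V))
  have h2 := congrFun (congrFun h1 x) y
  rw [Matrix.mul_apply, Matrix.one_apply] at h2
  rw [← h2, hopL_apply]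
  simp only [R_apply]
  have e : ((V x : ℂ) - z) * KB Λ z V x y = ∑ t : Λ, (if x = t then (V x : ℂ) - z else 0) *
      KB Λ z V t y := by
    rw [Finset.sum_eq_single x]
    · rw [if_pos rfl]
    · intro t _ ht
      rw [if_neg (Ne.symm ht), zero_mul]
    · intro h
      exact absurd (Finset.mem_univ x) h
  rw [e, ← Finset.sum_add_distrib]
  refine Finset.sum_congr rfl fun t _ => ?_
  unfold KB
  ring

theorem KB_symm (Λ : Finset (Site d)) (z : ℂ) (V : Site d → ℝ) (x y : Λ) :
    KB Λ z V x y = KB Λ z V y x := by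
  have h : (z • (1 : Matrix Λ Λ ℂ) - HC V Λ).transpose = z • (1 : Matrix Λ Λ ℂ) - HC V Λ := by
    ext a b
    rw [Matrix.transpose_apply, R_apply, R_apply, hop_comm]
    by_cases hab : a = b
    · subst hab
      rfl
    · rw [if_neg hab, if_neg (Ne.symm hab)]
  unfold KB
  have h2 : ((z • (1 : Matrix Λ Λ ℂ) - HC V Λ)⁻¹).transpose = (z • (1 : Matrix Λ Λ ℂ) - HC V Λ)⁻¹ := by
    rw [Matrix.transpose_nonsing_inv, h]
  have h3 := congrFun (congrFun h2 y) x
  rw [Matrix.transpose_apply] at h3
  rw [h3]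

theorem app_lin {ι : Type*} [DecidableEq ι] (L : (ι → ℂ) →ₗ[ℂ] (ι → ℂ)) {W : ι → ℂ} {K : Kern ι}
    (he : ∀ x y, L (fun t => K t y) x + W x * K x y = if x = y then 1 else 0) (f : ι →₀ ℂ)
    (x : ι) : L (app K f) x + W x * app K f x = f x := by
  have e1 : app K f = ∑ y ∈ f.support, f y • fun t => K t y := by
    funext t
    unfold app
    rw [Finsupp.sum, Finset.sum_apply]
    refine Finset.sum_congr rfl fun y _ => ?_
    rw [Pi.smul_apply, smul_eq_mul, mul_comm]
  have e2 : L (app K f) x = ∑ y ∈ f.support, f y * L (fun t => K t y) x := by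
    rw [e1, map_sum, Finset.sum_apply]
    refine Finset.sum_congr rfl fun y _ => ?_
    rw [map_smul, Pi.smul_apply, smul_eq_mul]
  have e3 : W x * app K f x = ∑ y ∈ f.support, f y * (W x * K x y) := by
    unfold app
    rw [Finsupp.sum, Finset.mul_sum]
    refine Finset.sum_congr rfl fun y _ => ?_
    ring
  rw [e2, e3, ← Finset.sum_add_distrib]
  have e4 : ∀ y ∈ f.support, f y * L (fun t => K t y) x + f y * (W x * K x y) =
      if x = y then f y else 0 := by
    intro y _
    rw [← mul_add, he]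
    split_ifs <;> simp
  rw [Finset.sum_congr rfl e4, Finset.sum_ite_eq]
  split_ifs with h
  · rfl
  · exact (Finsupp.notMem_support_iff.1 h).symm

theorem ker_KB (Λ : Finset (Site d)) {z : ℂ} (hz : 0 < z.im) (V : Site d → ℝ) :
    Ker (hopL Λ) (fun i : Λ => (V i : ℂ) - z) (KB Λ z V) where
  symm := KB_symm Λ z V
  eqn := KB_eqn Λ hz.ne' V
  neg x := by simp [hz]
  pos f T := by
    set g := app (KB Λ z V) f with hg
    have hf : ∀ x, hopL Λ g x + ((V x : ℂ) - z) * g x = f x := fun x =>
      app_lin (hopL Λ) (KB_eqn Λ hz.ne' V) f x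
    have h1 : form (KB Λ z V) f = ∑ x : Λ, conj (f x) * g x := by
      unfold form Finsupp.sum
      apply Finset.sum_subset (Finset.subset_univ _)
      intro x _ hx
      have h0 : f x = 0 := Finsupp.notMem_support_iff.1 hx
      simp only [h0, map_zero, zero_mul]
    have h2 : form (KB Λ z V) f = (∑ x : Λ, conj (hopL Λ g x) * g x) +
        ∑ x : Λ, conj ((V x : ℂ) - z) * (conj (g x) * g x) := by
      rw [h1, ← Finset.sum_add_distrib]
      refine Finset.sum_congr rfl fun x _ => ?_
      rw [← hf x, map_add, map_mul]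
      ring
    have h3 : (∑ x : Λ, conj (hopL Λ g x) * g x).im = 0 := by
      have h4 : conj (∑ x : Λ, conj (hopL Λ g x) * g x) = ∑ x : Λ, conj (hopL Λ g x) * g x := by
        rw [map_sum]
        have e1 : ∀ x : Λ, conj (conj (hopL Λ g x) * g x) =
            ∑ t : Λ, (hop (x : Site d) t : ℂ) * (g t * conj (g x)) := by
          intro x
          rw [map_mul, Complex.conj_conj, hopL_apply, Finset.sum_mul]
          refine Finset.sum_congr rfl fun t _ => ?_
          ring
        have e2 : ∀ x : Λ, conj (hopL Λ g x) * g x =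
            ∑ t : Λ, (hop (x : Site d) t : ℂ) * (g x * conj (g t)) := by
          intro x
          rw [hopL_apply, map_sum, Finset.sum_mul]
          refine Finset.sum_congr rfl fun t _ => ?_
          rw [map_mul, Complex.conj_ofReal]
          ring
        calc ∑ x : Λ, conj (conj (hopL Λ g x) * g x) =
              ∑ x : Λ, ∑ t : Λ, (hop (x : Site d) t : ℂ) * (g t * conj (g x)) :=
              Finset.sum_congr rfl fun x _ => e1 x
          _ = ∑ t : Λ, ∑ x : Λ, (hop (x : Site d) t : ℂ) * (g t * conj (g x)) :=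
              Finset.sum_comm
          _ = ∑ x : Λ, ∑ t : Λ, (hop (x : Site d) t : ℂ) * (g x * conj (g t)) := by
              refine Finset.sum_congr rfl fun x _ => ?_
              refine Finset.sum_congr rfl fun t _ => ?_
              rw [hop_comm]
          _ = _ := (Finset.sum_congr rfl fun x _ => e2 x).symm
      exact Complex.conj_eq_iff_im.1 h4
    have h5 : (∑ x : Λ, conj ((V x : ℂ) - z) * (conj (g x) * g x)).im =
        ∑ x : Λ, z.im * ‖g x‖ ^ 2 := by
      rw [Complex.im_sum]
      refine Finset.sum_congr rfl fun x _ => ?_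
      rw [Complex.conj_mul', ← Complex.ofReal_pow, Complex.im_mul_ofReal, Complex.conj_im]
      simp
    rw [h2, Complex.add_im, h3, zero_add, h5]
    calc ∑ u ∈ T, (-((V u : ℂ) - z).im) * ‖g u‖ ^ 2 = ∑ u ∈ T, z.im * ‖g u‖ ^ 2 := by
          refine Finset.sum_congr rfl fun u _ => ?_
          simp
      _ ≤ _ := by
          apply Finset.sum_le_sum_of_subset_of_nonneg (Finset.subset_univ _)
          intro x _ _
          positivity

theorem KB_update (Λ : Finset (Site d)) {z : ℂ} (hz : 0 < z.im) (V : Site d → ℝ) (i : Λ) (v : ℝ) :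
    KB Λ z (Function.update V i v) = upk i ((v : ℂ) - V i) (KB Λ z V) := by
  have h := ((ker_KB Λ hz V).upd (w := (v : ℂ) - V i) (by simp) i).eqn
  set K' := upk i ((v : ℂ) - V i) (KB Λ z V) with hK'
  have h1 : (z • (1 : Matrix Λ Λ ℂ) - HC (Function.update V i v) Λ) *
      (Matrix.of fun x y => -K' x y) = 1 := by
    ext x y
    rw [Matrix.mul_apply, Matrix.one_apply, ← h x y, hopL_apply]
    simp only [R_apply, Matrix.of_apply]
    have e : (Function.update (fun i : Λ => (V i : ℂ) - z) i ((V i : ℂ) - z + ((v : ℂ) - V i))) x *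
        K' x y = ∑ t : Λ, (if x = t then ((Function.update V i v x : ℝ) : ℂ) - z else 0) *
        K' t y := by
      rw [Finset.sum_eq_single x]
      · rw [if_pos rfl]
        congr 1
        by_cases hx : x = i
        · subst hx
          rw [Function.update_self, Function.update_self]
          ring
        · rw [Function.update_of_ne hx,
            Function.update_of_ne (fun e => hx (Subtype.ext e))]
      · intro t _ ht
        rw [if_neg (Ne.symm ht), zero_mul]
      · intro h
        exact absurd (Finset.mem_univ x) h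
    rw [e, ← Finset.sum_add_distrib]
    refine Finset.sum_congr rfl fun t _ => ?_
    ring
  have h2 := Matrix.inv_eq_right_inv h1
  funext x y
  unfold KB
  rw [h2, Matrix.of_apply, neg_neg]

theorem measurable_KB (Λ : Finset (Site d)) (z : ℂ) (x y : Λ) :
    Measurable fun V => KB Λ z V x y := by
  unfold KB
  have hc : Continuous fun V : Site d → ℝ => z • (1 : Matrix Λ Λ ℂ) - HC V Λ := by
    refine continuous_matrix fun a b => ?_
    simp only [R_apply]
    refine Continuous.neg (continuous_const.add ?_)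
    split_ifs
    · exact (Complex.continuous_ofReal.comp (continuous_apply _)).sub continuous_const
    · exact continuous_const
  simp only [Matrix.inv_def, Matrix.smul_apply, smul_eq_mul, Ring.inverse_eq_inv']
  refine Measurable.neg (Measurable.mul ?_ ?_)
  · exact (hc.matrix_det.measurable).inv
  · exact (hc.matrix_adjugate.matrix_elem x y).measurable

theorem fam_KB (Λ : Finset (Site d)) {z : ℂ} (hz : 0 < z.im) :
    Fam (hopL Λ) (fun i : Λ => (i : Site d)) z (KB Λ z) where
  ker V := ker_KB Λ hz V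
  upd V i v := KB_update Λ hz V i v
  inj := Subtype.val_injective
  meas := measurable_KB Λ z

/-- convergence to the real energy -/
theorem tendsto_KB {Λ : Finset (Site d)} {E : ℝ} {V : Site d → ℝ} (h : (RM V Λ E).det ≠ 0)
    {e : ℕ → ℝ} (he : Tendsto e atTop (𝓝 0)) (x y : Λ) :
    Tendsto (fun k => KB Λ (zz (e k) E) V x y) atTop (𝓝 (-(gr V Λ E x y : ℂ))) := by
  have h1 : Tendsto (fun k => zz (e k) E) atTop (𝓝 (E : ℂ)) := by
    unfold zz
    have h2 : Tendsto (fun k => (e k : ℂ) * Complex.I) atTop (𝓝 ((0 : ℝ) * Complex.I)) :=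
      ((Complex.continuous_ofReal.tendsto 0).comp he).mul_const _
    have h3 := h2.const_add (E : ℂ)
    simpa using h3
  have h4 : KB Λ (E : ℂ) V x y = -(gr V Λ E x y : ℂ) := by
    rw [KB_eq_gz, H11.gz_real]
  rw [← h4]
  have hc : Continuous fun z : ℂ => z • (1 : Matrix Λ Λ ℂ) - HC V Λ := by fun_prop
  have hca : ContinuousAt (fun z : ℂ => KB Λ z V x y) (E : ℂ) := by
    unfold KB
    simp only [Matrix.inv_def, Matrix.smul_apply, smul_eq_mul, Ring.inverse_eq_inv']
    refine ContinuousAt.neg (ContinuousAt.mul ?_ ?_)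
    · apply ContinuousAt.inv₀ hc.matrix_det.continuousAt
      rw [H11.det_map_RM]
      exact_mod_cast h
    · exact (hc.matrix_adjugate.matrix_elem x y).continuousAt
  exact hca.tendsto.comp h1

end Pool.Agent.LY
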