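import Pool.Agent.Helper54_LY.Fin

/-!
# The chaining bound: from a site to all sites of a cube
-/

set_option autoImplicit false
set_option linter.unusedSectionVars false

open scoped InnerProductSpace ComplexConjugate Topology ENNReal
open MeasureTheory Filter ProbabilityTheory

noncomputable section

namespace Pool.Agent.LY

open Pool.Agent.Anderson Pool.Agent.Loc Pool.Agent.Mob Pool.Agent.Helper54.Bal

variable {d : ℕ}

/-- the positive part of `- log |g|` -/
def Dp (g : ℝ) : ℝ≥0∞ := if g = 0 then ∞ else ENNReal.ofReal (-Real.log |g|)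

/-- the positive part of `log (|a| |b| / |c|)` -/
def Rp (a b c : ℝ) : ℝ≥0∞ :=
  if c = 0 then (if a * b = 0 then 0 else ∞) else ENNReal.ofReal (Real.log (|a| * |b| / |c|))

theorem Dp_le (a b c : ℝ) : Dp c ≤ Dp a + Dp b + Rp a b c := by
  unfold Dp Rp
  by_cases ha : a = 0
  · rw [if_pos ha]; simp
  by_cases hb : b = 0
  · rw [if_pos hb]; simp
  by_cases hc : c = 0
  · rw [if_pos hc, if_pos hc, if_neg (mul_ne_zero ha hb)]; simp
  rw [if_neg ha, if_neg hb, if_neg hc, if_neg hc]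
  have ha' : |a| ≠ 0 := abs_ne_zero.2 ha
  have hb' : |b| ≠ 0 := abs_ne_zero.2 hb
  have hc' : |c| ≠ 0 := abs_ne_zero.2 hc
  have e : -Real.log |c| = -Real.log |a| + -Real.log |b| + Real.log (|a| * |b| / |c|) := by
    rw [Real.log_div (mul_ne_zero ha' hb') hc', Real.log_mul ha' hb']
    ring
  rw [e]
  refine ENNReal.ofReal_add_le.trans ?_
  gcongr
  exact ENNReal.ofReal_add_le

theorem measurable_Dp : Measurable Dp := by
  unfold Dp
  refine Measurable.ite (measurableSet_singleton 0) measurable_const ?_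
  fun_prop

theorem measurable_Rp {α : Type*} [MeasurableSpace α] {a b c : α → ℝ} (ha : Measurable a)
    (hb : Measurable b) (hc : Measurable c) : Measurable fun x => Rp (a x) (b x) (c x) := by
  unfold Rp
  refine Measurable.ite (hc (measurableSet_singleton 0)) ?_ ?_
  · exact Measurable.ite ((ha.mul hb) (measurableSet_singleton 0)) measurable_const
      measurable_const
  · fun_prop

theorem Dp_rpow_le {p : ℝ} (hp : 0 < p) (g : ℝ) :
    (Dp g) ^ p ≤ ENNReal.ofReal ((4 * p) ^ p) * (ENNReal.ofReal |g|) ^ (-(1 / 4) : ℝ) := by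
  unfold Dp
  by_cases hg : g = 0
  · rw [if_pos hg, hg, abs_zero, ENNReal.ofReal_zero, ENNReal.zero_rpow_of_neg (by norm_num),
      ENNReal.mul_top]
    · exact le_top
    · rw [Ne, ENNReal.ofReal_eq_zero, not_le]
      positivity
  rw [if_neg hg]
  have hg' : 0 < |g| := abs_pos.2 hg
  rw [ENNReal.ofReal_rpow_of_pos hg', ← ENNReal.ofReal_mul (by positivity)]
  have h1 : -Real.log |g| ≤ 4 * p * |g| ^ (-(1 / (4 * p))) := by
    have h2 := Real.log_le_rpow_div (x := |g|⁻¹) (by positivity) (ε := 1 / (4 * p))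
      (by positivity)
    rw [Real.log_inv, Real.inv_rpow hg'.le] at h2
    rw [Real.rpow_neg hg'.le]
    have e : (|g| ^ (1 / (4 * p)))⁻¹ / (1 / (4 * p)) = 4 * p * (|g| ^ (1 / (4 * p)))⁻¹ := by
      field_simp
    rw [e] at h2
    exact h2
  have h3 : ENNReal.ofReal (-Real.log |g|) ≤ ENNReal.ofReal (4 * p * |g| ^ (-(1 / (4 * p)))) :=
    ENNReal.ofReal_le_ofReal h1
  have h4 := ENNReal.rpow_le_rpow h3 hp.le
  refine h4.trans (le_of_eq ?_)
  rw [ENNReal.ofReal_rpow_of_pos (by positivity), Real.mul_rpow (by positivity) (by positivity),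
    ← Real.rpow_mul hg'.le]
  congr 3
  field_simp

theorem Rp_rpow_le {p : ℝ} (hp : 0 < p) {a b c : ℝ} (h : c ≠ 0) :
    (Rp a b c) ^ p ≤ ENNReal.ofReal ((2 * p) ^ p) * ENNReal.ofReal (√(|a| * |b| / |c|)) := by
  unfold Rp
  rw [if_neg h, ← ENNReal.ofReal_mul (by positivity)]
  have hc' : 0 < |c| := abs_pos.2 h
  set r := |a| * |b| / |c| with hr
  have hr0 : 0 ≤ r := by positivity
  have h1 : Real.log r ≤ 2 * p * r ^ (1 / (2 * p)) := by
    have h2 := Real.log_le_rpow_div hr0 (ε := 1 / (2 * p)) (by positivity)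
    have e : r ^ (1 / (2 * p)) / (1 / (2 * p)) = 2 * p * r ^ (1 / (2 * p)) := by
      field_simp
    rw [e] at h2
    exact h2
  have h4 := ENNReal.rpow_le_rpow (ENNReal.ofReal_le_ofReal h1) hp.le
  refine h4.trans (le_of_eq ?_)
  rw [ENNReal.ofReal_rpow_of_nonneg (by positivity) hp.le, Real.mul_rpow (by positivity)
    (by positivity), ← Real.rpow_mul hr0, Real.sqrt_eq_rpow]
  congr 3
  field_simp

section norms

variable {α : Type*} [MeasurableSpace α] (μ : Measure α) (p : ℝ)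

/-- the `L^p` norm -/
def Nn (f : α → ℝ≥0∞) : ℝ≥0∞ := (∫⁻ x, f x ^ p ∂μ) ^ (1 / p)

variable {μ p}

theorem Nn_mono (hp : 0 < p) {f g : α → ℝ≥0∞} (h : ∀ x, f x ≤ g x) : Nn μ p f ≤ Nn μ p g := by
  unfold Nn
  refine ENNReal.rpow_le_rpow (lintegral_mono fun x => ?_) (by positivity)
  exact ENNReal.rpow_le_rpow (h x) hp.le

theorem Nn_add (hp : 1 ≤ p) {f g : α → ℝ≥0∞} (hf : Measurable f) (hg : Measurable g) :
    Nn μ p (fun x => f x + g x) ≤ Nn μ p f + Nn μ p g :=
  ENNReal.lintegral_Lp_add_le hf.aemeasurable hg.aemeasurable hp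

theorem Nn_le (hp : 0 < p) {f : α → ℝ≥0∞} {C : ℝ≥0∞} (h : ∫⁻ x, f x ^ p ∂μ ≤ C) :
    Nn μ p f ≤ C ^ (1 / p) :=
  ENNReal.rpow_le_rpow h (by positivity)

theorem Nn_rpow (hp : 0 < p) (f : α → ℝ≥0∞) : (Nn μ p f) ^ p = ∫⁻ x, f x ^ p ∂μ := by
  unfold Nn
  rw [← ENNReal.rpow_mul, one_div, inv_mul_cancel₀ hp.ne', ENNReal.rpow_one]

theorem Nn_sup (hp : 0 < p) {ι : Type*} (S : Finset ι) {f : ι → α → ℝ≥0∞}
    (hf : ∀ i ∈ S, Measurable (f i)) {C : ℝ≥0∞} (h : ∀ i ∈ S, Nn μ p (f i) ≤ C) :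
    Nn μ p (fun x => S.sup fun i => f i x) ≤ (S.card : ℝ≥0∞) ^ (1 / p) * C := by
  have h1 : ∫⁻ x, (S.sup fun i => f i x) ^ p ∂μ ≤ (S.card : ℝ≥0∞) * C ^ p := by
    calc ∫⁻ x, (S.sup fun i => f i x) ^ p ∂μ ≤ ∫⁻ x, ∑ i ∈ S, (f i x) ^ p ∂μ := by
          refine lintegral_mono fun x => ?_
          rcases S.eq_empty_or_nonempty with rfl | hS
          · simp [ENNReal.zero_rpow_of_pos hp]
          · obtain ⟨i, hi, e⟩ := Finset.exists_mem_eq_sup S hS (fun i => f i x)
            simp only [e]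
            exact Finset.single_le_sum (f := fun i => (f i x) ^ p) (fun _ _ => zero_le) hi
      _ = ∑ i ∈ S, ∫⁻ x, (f i x) ^ p ∂μ :=
          lintegral_finsetSum _ fun i hi => (hf i hi).pow_const _
      _ ≤ ∑ _i ∈ S, C ^ p := by
          refine Finset.sum_le_sum fun i hi => ?_
          rw [← Nn_rpow hp]
          exact ENNReal.rpow_le_rpow (h i hi) hp.le
      _ = _ := by rw [Finset.sum_const, nsmul_eq_mul]
  refine (Nn_le hp h1).trans (le_of_eq ?_)
  rw [ENNReal.mul_rpow_of_nonneg _ _ (by positivity), ← ENNReal.rpow_mul, mul_one_div_cancel hp.ne',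
    ENNReal.rpow_one]

end norms

end Pool.Agent.LY
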