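import Pool.Agent.Helper54_LY.Chn

/-!
# The chaining bound: from a site to all sites of a cube (end)
-/

set_option autoImplicit false
set_option linter.unusedSectionVars false

open scoped InnerProductSpace ComplexConjugate Topology ENNReal
open MeasureTheory Filter ProbabilityTheory

noncomputable section

namespace Pool.Agent.LY

open Pool.Agent.Anderson Pool.Agent.Loc Pool.Agent.Mob Pool.Agent.Helper54.Bal

variable {d : ℕ}

theorem near {σ : ℝ} (hσ : σ ≠ 0) (E : ℝ) {p : ℝ} (hp : 0 < p) : ∃ C : ℝ, 0 ≤ C ∧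
    ∀ (Λ : Finset (Site d)) (x y : Site d), x ∈ Λ → y ∈ Λ → (x = y ∨ hop x y ≠ 0) →
    Nn (PL (gl σ) Λ) p (fun V => Dp (gr V Λ E x y)) ≤ ENNReal.ofReal C := by
  obtain ⟨C, hC, h⟩ := low_gl (d := d) hσ E
  refine ⟨((4 * p) ^ p * C) ^ (1 / p), by positivity, ?_⟩
  intro Λ x y hx hy hxy
  rw [← ENNReal.ofReal_rpow_of_nonneg (by positivity) (by positivity)]
  apply Nn_le hp
  calc ∫⁻ V, (Dp (gr V Λ E x y)) ^ p ∂(PL (gl σ) Λ)
      ≤ ∫⁻ V, ENNReal.ofReal ((4 * p) ^ p) * (ENNReal.ofReal |gr V Λ E x y|) ^ (-(1 / 4) : ℝ)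
          ∂(PL (gl σ) Λ) := lintegral_mono fun V => Dp_rpow_le hp _
    _ = ENNReal.ofReal ((4 * p) ^ p) * ∫⁻ V, (ENNReal.ofReal |gr V Λ E x y|) ^ (-(1 / 4) : ℝ)
          ∂(PL (gl σ) Λ) := lintegral_const_mul' _ _ ENNReal.ofReal_ne_top
    _ ≤ ENNReal.ofReal ((4 * p) ^ p) * ENNReal.ofReal C := by
        gcongr
        exact h Λ x y hx hy hxy
    _ = _ := by rw [← ENNReal.ofReal_mul (by positivity)]

theorem ratio {σ : ℝ} (hσ : σ ≠ 0) (E : ℝ) {p : ℝ} (hp : 0 < p) : ∃ C : ℝ, 0 ≤ C ∧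
    ∀ (Λ : Finset (Site d)) (x u y : Site d),
    Nn (PL (gl σ) Λ) p (fun V => Rp (gr V Λ E x u) (gr V Λ E u y) (gr V Λ E x y)) ≤
      ENNReal.ofReal C := by
  set ρ : ℝ := 1 / |σ| with hρdef
  have hν := bddDens_gl hσ
  have hρ : 0 < ρ := hν.1
  refine ⟨((2 * p) ^ p * (1 + 8 * ρ)) ^ (1 / p), by positivity, ?_⟩
  intro Λ x u y
  rw [← ENNReal.ofReal_rpow_of_nonneg (by positivity) (by positivity)]
  apply Nn_le hp
  have hone : ∀ τ : ℝ, 0 < τ → PL (gl σ) Λ {V | τ * |gr V Λ E x y| < |gr V Λ E x u| *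
      |gr V Λ E u y|} ≤ ENNReal.ofReal (8 * ρ / τ) := fun τ hτ => one hν Λ E u x y hτ
  have hnull : PL (gl σ) Λ {V | gr V Λ E x y = 0 ∧ gr V Λ E x u * gr V Λ E u y ≠ 0} = 0 := by
    have h1 : ∀ k : ℕ, PL (gl σ) Λ {V | gr V Λ E x y = 0 ∧ gr V Λ E x u * gr V Λ E u y ≠ 0} ≤
        ENNReal.ofReal (8 * ρ / ((k : ℝ) + 1)) := by
      intro k
      refine (measure_mono ?_).trans (hone ((k : ℝ) + 1) (by positivity))
      rintro V ⟨h2, h3⟩
      rw [Set.mem_ofPred_eq, h2, abs_zero, mul_zero, ← abs_mul]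
      exact abs_pos.2 h3
    have h2 : Tendsto (fun k : ℕ => ENNReal.ofReal (8 * ρ / ((k : ℝ) + 1))) atTop
        (𝓝 (ENNReal.ofReal 0)) := by
      apply ENNReal.tendsto_ofReal
      have := (tendsto_one_div_add_atTop_nhds_zero_nat (𝕜 := ℝ)).const_mul (8 * ρ)
      rw [mul_zero] at this
      refine this.congr fun k => ?_
      ring
    rw [ENNReal.ofReal_zero] at h2
    exact le_antisymm (ge_of_tendsto' h2 h1) zero_le
  set f : (Site d → ℝ) → ℝ := fun V => |gr V Λ E x u| * |gr V Λ E u y| / |gr V Λ E x y| with hf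
  have hfm : Measurable f := by
    have h1 := measurable_gr Λ E x u
    have h2 := measurable_gr Λ E u y
    have h3 := measurable_gr Λ E x y
    exact ((h1.abs.mul h2.abs)).div h3.abs
  have hweak : ∀ τ : ℝ, 0 < τ → PL (gl σ) Λ {V | τ < |f V|} ≤ ENNReal.ofReal (8 * ρ / τ) := by
    intro τ hτ
    refine (measure_mono ?_).trans (hone τ hτ)
    intro V hV
    have h0 : 0 ≤ f V := by rw [hf]; positivity
    rw [Set.mem_ofPred_eq, abs_of_nonneg h0] at hV
    rw [Set.mem_ofPred_eq]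
    have hne : |gr V Λ E x y| ≠ 0 := by
      intro h1
      rw [hf] at hV
      simp only [h1, div_zero] at hV
      linarith
    have hpos : 0 < |gr V Λ E x y| := lt_of_le_of_ne (abs_nonneg _) (Ne.symm hne)
    exact (lt_div_iff₀ hpos).1 hV
  have hint := weak_sqrt hfm (B := Set.univ) (c := 8 * ρ) (by positivity) hweak (a := 1) one_pos
  rw [Measure.restrict_univ, measure_univ, mul_one, div_one,
    ← ENNReal.ofReal_add (by norm_num) (by positivity)] at hint
  have hae : ∀ᵐ V ∂(PL (gl σ) Λ), (Rp (gr V Λ E x u) (gr V Λ E u y) (gr V Λ E x y)) ^ p ≤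
      ENNReal.ofReal ((2 * p) ^ p) * ENNReal.ofReal (√|f V|) := by
    have h1 : ∀ᵐ V ∂(PL (gl σ) Λ), ¬ (gr V Λ E x y = 0 ∧ gr V Λ E x u * gr V Λ E u y ≠ 0) := by
      rw [ae_iff]
      simpa only [not_not] using hnull
    filter_upwards [h1] with V hV
    have h0 : 0 ≤ f V := by rw [hf]; positivity
    rw [abs_of_nonneg h0]
    by_cases hc : gr V Λ E x y = 0
    · have h2 : gr V Λ E x u * gr V Λ E u y = 0 := by
        by_contra h3
        exact hV ⟨hc, h3⟩
      unfold Rp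
      rw [if_pos hc, if_pos h2, ENNReal.zero_rpow_of_pos hp]
      exact zero_le
    · exact Rp_rpow_le hp hc
  calc _ ≤ ∫⁻ V, ENNReal.ofReal ((2 * p) ^ p) * ENNReal.ofReal (√|f V|) ∂(PL (gl σ) Λ) :=
        lintegral_mono_ae hae
    _ = ENNReal.ofReal ((2 * p) ^ p) * ∫⁻ V, ENNReal.ofReal (√|f V|) ∂(PL (gl σ) Λ) :=
        lintegral_const_mul' _ _ ENNReal.ofReal_ne_top
    _ ≤ ENNReal.ofReal ((2 * p) ^ p) * ENNReal.ofReal (1 + 8 * ρ) := by gcongr
    _ = _ := by rw [← ENNReal.ofReal_mul (by positivity)]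

/-- the `ℓ¹` distance -/
def l1 (c s : Site d) : ℕ := ∑ i, (s i - c i).natAbs

theorem l1_le (c s : Site d) {n : ℕ} (h : sd c s ≤ n) : l1 c s ≤ d * n := by
  unfold l1
  have h1 := sd_le_iff.1 h
  calc ∑ i, (s i - c i).natAbs ≤ ∑ _i : Fin d, n := by
        refine Finset.sum_le_sum fun i _ => ?_
        have := h1 i
        rw [abs_sub_comm, Int.abs_eq_natAbs] at this
        exact_mod_cast this
    _ = _ := by simp

theorem hop_step (s : Site d) (i : Fin d) {a : ℤ} (ha : a = 1 ∨ a = -1) :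
    hop (s + Pi.single i a) s ≠ 0 := by
  have h : 0 < hop (s + Pi.single i a) s := by
    unfold hop
    apply Finset.sum_pos' (fun j _ => by positivity)
    refine ⟨i, Finset.mem_univ _, ?_⟩
    rcases ha with rfl | rfl
    · have : s = s + Pi.single i 1 - Pi.single i 1 := by abel
      rw [if_pos this]
      positivity
    · have : s = s + Pi.single i (-1) + Pi.single i 1 := by
        rw [add_assoc, ← Pi.single_add]
        simp
      rw [if_pos this]
      positivity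
  exact h.ne'

/-- a neighbour closer to `c` -/
theorem closer {c s : Site d} (h : s ≠ c) : ∃ s' : Site d, l1 c s' + 1 = l1 c s ∧
    sd c s' ≤ sd c s ∧ hop s' s ≠ 0 := by
  obtain ⟨i, hi⟩ := Function.ne_iff.1 h
  obtain ⟨a, ha, hab, hab2⟩ : ∃ a : ℤ, (a = 1 ∨ a = -1) ∧
      (s i + a - c i).natAbs + 1 = (s i - c i).natAbs ∧ |c i - (s i + a)| ≤ |c i - s i| := by
    rcases lt_or_gt_of_ne hi with h1 | h1
    · refine ⟨1, Or.inl rfl, by omega, ?_⟩
      rw [abs_of_nonneg (by omega), abs_of_nonneg (by omega)]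
      omega
    · refine ⟨-1, Or.inr rfl, by omega, ?_⟩
      rw [abs_of_nonpos (by omega), abs_of_nonpos (by omega)]
      omega
  refine ⟨s + Pi.single i a, ?_, ?_, hop_step s i ha⟩
  · unfold l1
    rw [← Finset.add_sum_erase _ _ (Finset.mem_univ i), ← Finset.add_sum_erase _ _
      (Finset.mem_univ i)]
    have h2 : ∑ j ∈ Finset.univ.erase i, ((s + Pi.single i a : Site d) j - c j).natAbs =
        ∑ j ∈ Finset.univ.erase i, (s j - c j).natAbs := by
      refine Finset.sum_congr rfl fun j hj => ?_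
      rw [Pi.add_apply, Pi.single_eq_of_ne (Finset.ne_of_mem_erase hj), add_zero]
    rw [h2, Pi.add_apply, Pi.single_eq_same]
    omega
  · rw [sd_le_iff]
    intro j
    have h3 := sd_le_iff.1 (le_refl (sd c s)) j
    by_cases hj : j = i
    · subst hj
      rw [Pi.add_apply, Pi.single_eq_same]
      exact hab2.trans h3
    · rw [Pi.add_apply, Pi.single_eq_of_ne hj, add_zero]
      exact h3

section main

variable {σ E C1 C2 p : ℝ} {Λ : Finset (Site d)}

theorem path (hp : 1 ≤ p) (hC1 : 0 ≤ C1) (hC2 : 0 ≤ C2)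
    (h1 : ∀ x y : Site d, x ∈ Λ → y ∈ Λ → (x = y ∨ hop x y ≠ 0) →
      Nn (PL (gl σ) Λ) p (fun V => Dp (gr V Λ E x y)) ≤ ENNReal.ofReal C1)
    (h2 : ∀ x u y : Site d, Nn (PL (gl σ) Λ) p
      (fun V => Rp (gr V Λ E x u) (gr V Λ E u y) (gr V Λ E x y)) ≤ ENNReal.ofReal C2)
    {n : ℕ} {c : Site d} (hc : box c n ⊆ Λ) (m : ℕ) :
    ∀ s : Site d, l1 c s = m → sd c s ≤ n →
      Nn (PL (gl σ) Λ) p (fun V => Dp (gr V Λ E c s)) ≤ ENNReal.ofReal ((m + 1) * (C1 + C2)) := by
  induction m with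
  | zero =>
    intro s hs hn
    have hsc : s = c := by
      by_contra hne
      obtain ⟨s', hs', -⟩ := closer hne
      omega
    subst hsc
    have hmem : s ∈ Λ := hc (mem_box.2 (by rw [sd_self]; exact Nat.zero_le _))
    refine (h1 s s hmem hmem (Or.inl rfl)).trans (ENNReal.ofReal_le_ofReal ?_)
    push_cast
    linarith
  | succ m ih =>
    intro s hs hn
    have hne : s ≠ c := by
      rintro rfl
      unfold l1 at hs
      simp at hs
    obtain ⟨s', hs', hsd, hhop⟩ := closer hne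
    have hm := ih s' (by omega) (hsd.trans hn)
    have hcm : c ∈ Λ := hc (mem_box.2 (by rw [sd_self]; exact Nat.zero_le _))
    have hsm : s ∈ Λ := hc (mem_box.2 hn)
    have hsm' : s' ∈ Λ := hc (mem_box.2 (hsd.trans hn))
    have mD : ∀ x y, Measurable fun V : Site d → ℝ => Dp (gr V Λ E x y) := fun x y =>
      measurable_Dp.comp (measurable_gr Λ E x y)
    have mR : Measurable fun V : Site d → ℝ =>
        Rp (gr V Λ E c s') (gr V Λ E s' s) (gr V Λ E c s) :=
      measurable_Rp (measurable_gr Λ E _ _) (measurable_gr Λ E _ _) (measurable_gr Λ E _ _)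
    calc Nn (PL (gl σ) Λ) p (fun V => Dp (gr V Λ E c s))
        ≤ Nn (PL (gl σ) Λ) p (fun V => (Dp (gr V Λ E c s') + Dp (gr V Λ E s' s)) +
            Rp (gr V Λ E c s') (gr V Λ E s' s) (gr V Λ E c s)) :=
          Nn_mono (by linarith) fun V => Dp_le _ _ _
      _ ≤ (Nn (PL (gl σ) Λ) p (fun V => Dp (gr V Λ E c s')) +
            Nn (PL (gl σ) Λ) p (fun V => Dp (gr V Λ E s' s))) +
            Nn (PL (gl σ) Λ) p (fun V => Rp (gr V Λ E c s') (gr V Λ E s' s) (gr V Λ E c s)) :=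
          (Nn_add hp ((mD _ _).add (mD _ _)) mR).trans
            (add_le_add (Nn_add hp (mD _ _) (mD _ _)) le_rfl)
      _ ≤ (ENNReal.ofReal ((m + 1) * (C1 + C2)) + ENNReal.ofReal C1) + ENNReal.ofReal C2 := by
          gcongr
          · exact h1 s' s hsm' hsm (Or.inr hhop)
          · exact h2 c s' s
      _ = _ := by
          rw [← ENNReal.ofReal_add (by positivity) hC1, ← ENNReal.ofReal_add (by positivity) hC2]
          congr 1
          push_cast
          ring

/-- the centres of the covering of a cube -/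
def Wc (c : Site d) (r : ℕ) : Finset (Site d) := (box (0 : Site d) 1).image fun e j => c j + r * e j

theorem card_Wc (c : Site d) (r : ℕ) : (Wc c r).card ≤ 3 ^ d := by
  refine Finset.card_image_le.trans ?_
  rw [card_box]

theorem sd_Wc {c w : Site d} {r : ℕ} (hw : w ∈ Wc c r) : sd c w ≤ r := by
  obtain ⟨e, he, rfl⟩ := Finset.mem_image.1 hw
  rw [mem_box, sd_le_iff] at he
  rw [sd_le_iff]
  intro i
  have h1 := he i
  rw [Pi.zero_apply, zero_sub, abs_neg] at h1
  have h2 : c i - (c i + r * e i) = -(r * e i) := by ring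
  rw [h2, abs_neg, abs_mul, Nat.abs_cast]
  calc (r : ℤ) * |e i| ≤ r * (1 : ℕ) := mul_le_mul_of_nonneg_left h1 (Nat.cast_nonneg r)
    _ = r := by simp

theorem exists_Wc {c s : Site d} {n r r' : ℕ} (hs : sd c s ≤ n) (hr : r + r' = n) (hrr : r' ≤ r) :
    ∃ w ∈ Wc c r', sd w s ≤ r := by
  rw [sd_le_iff] at hs
  refine ⟨fun j => c j + r' * (if s j - c j > r' then 1 else if s j - c j < -r' then -1 else 0),
    ?_, ?_⟩
  · refine Finset.mem_image.2 ⟨fun j => if s j - c j > r' then 1 else if s j - c j < -r' then -1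
      else 0, ?_, rfl⟩
    rw [mem_box, sd_le_iff]
    intro i
    rw [Pi.zero_apply]
    split_ifs <;> simp
  · rw [sd_le_iff]
    intro i
    have h1 := abs_le.1 (hs i)
    have h2 : (r : ℤ) + r' = n := by exact_mod_cast hr
    have h3 : (r' : ℤ) ≤ r := by exact_mod_cast hrr
    rw [abs_le]
    split_ifs with h4 h5 <;> constructor <;> linarith

end main

end Pool.Agent.LY
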