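import Pool.Agent.Helper54_LY.Neg

/-!
# Families of kernels: several potentials
-/

set_option autoImplicit false
set_option linter.unusedSectionVars false

open scoped InnerProductSpace ComplexConjugate Topology ENNReal
open MeasureTheory Filter

noncomputable section

namespace Pool.Agent.LY

open Pool.Agent.Loc

variable {ι δ : Type*} [DecidableEq ι] [DecidableEq δ]

/-- The Green functions for all real potentials, at the complex energy `z`. The index `i` has the
potential `V (φ i)`. -/
structure Fam (L : (ι → ℂ) →ₗ[ℂ] (ι → ℂ)) (φ : ι → δ) (z : ℂ) (K₀ : (δ → ℝ) → Kern ι) : Prop where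
  ker : ∀ V, Ker L (fun i => (V (φ i) : ℂ) - z) (K₀ V)
  upd : ∀ V i (v : ℝ), K₀ (Function.update V (φ i) v) = upk i ((v : ℂ) - V (φ i)) (K₀ V)
  inj : Function.Injective φ
  meas : ∀ x y, Measurable fun V => K₀ V x y

/-- the potential is `- i M` at the sites of the list `l` -/
def KL (K₀ : (δ → ℝ) → Kern ι) (φ : ι → δ) (M : ℝ) : List ι → (δ → ℝ) → Kern ι
  | [], V => K₀ V
  | i :: l, V => upk i (-(M * Complex.I)) (KL K₀ φ M l (Function.update V (φ i) 0))

namespace Fam

variable {L : (ι → ℂ) →ₗ[ℂ] (ι → ℂ)} {φ : ι → δ} {z : ℂ} {K₀ : (δ → ℝ) → Kern ι}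
  (h : Fam L φ z K₀) {M : ℝ} (hM : 0 ≤ M)
include h hM

theorem ker_KL {l : List ι} (hl : l.Nodup) (V : δ → ℝ) :
    Ker L (fun j => (if j ∈ l then -(M * Complex.I) else (V (φ j) : ℂ)) - z) (KL K₀ φ M l V) := by
  induction l generalizing V with
  | nil => simpa [KL] using h.ker V
  | cons i l ih =>
    rw [List.nodup_cons] at hl
    have h1 := (ih hl.2 (Function.update V (φ i) 0)).upd (w := -(M * Complex.I)) (by simp [hM]) i
    have e : (Function.update (fun j => (if j ∈ l then -(M * Complex.I)
        else ((Function.update V (φ i) 0 (φ j) : ℝ) : ℂ)) - z) i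
        ((if i ∈ l then -(M * Complex.I) else ((Function.update V (φ i) 0 (φ i) : ℝ) : ℂ)) - z +
          -(M * Complex.I))) =
        fun j => (if j ∈ i :: l then -(M * Complex.I) else (V (φ j) : ℂ)) - z := by
      funext j
      by_cases hj : j = i
      · subst hj
        rw [Function.update_self, if_neg hl.1, Function.update_self, if_pos List.mem_cons_self]
        push_cast
        ring
      · rw [Function.update_of_ne hj, Function.update_of_ne (fun e => hj (h.inj e))]
        simp only [List.mem_cons, hj, false_or]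
    have h2 : Ker L _ (KL K₀ φ M (i :: l) V) := h1
    rw [e] at h2
    exact h2

theorem KL_update {l : List ι} (hl : l.Nodup) {i : ι} (hi : i ∉ l) (V : δ → ℝ) (v : ℝ) :
    KL K₀ φ M l (Function.update V (φ i) v) =
      upk i ((v : ℂ) - V (φ i)) (KL K₀ φ M l V) := by
  induction l generalizing V with
  | nil => exact h.upd V i v
  | cons j l ih =>
    rw [List.nodup_cons] at hl
    rw [List.mem_cons, not_or] at hi
    have hne : φ j ≠ φ i := fun e => hi.1 (h.inj e).symm
    have e1 : KL K₀ φ M (j :: l) (Function.update V (φ i) v) =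
        upk j (-(M * Complex.I)) (KL K₀ φ M l
          (Function.update (Function.update V (φ i) v) (φ j) 0)) := rfl
    have e2 : KL K₀ φ M (j :: l) V =
        upk j (-(M * Complex.I)) (KL K₀ φ M l (Function.update V (φ j) 0)) := rfl
    rw [e1, e2, Function.update_comm hne.symm, ih hl.2 hi.2, Function.update_of_ne hne.symm]
    have hk := h.ker_KL hM hl.2 (Function.update V (φ j) 0)
    have hw : ((v : ℂ) - V (φ i)).im ≤ 0 := by simp
    have hw' : (-(M * Complex.I)).im ≤ 0 := by simp [hM]
    exact upk_comm (hk.den_ne hw i) (hk.den_ne hw' j) ((hk.upd hw i).den_ne hw' j)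

theorem meas_KL (l : List ι) (x y : ι) : Measurable fun V => KL K₀ φ M l V x y := by
  induction l generalizing x y with
  | nil => exact h.meas x y
  | cons i l ih =>
    have hu : Measurable fun V : δ → ℝ => Function.update V (φ i) 0 := measurable_update_left
    have e : (fun V => KL K₀ φ M (i :: l) V x y) = fun V =>
        KL K₀ φ M l (Function.update V (φ i) 0) x y - (-(M * Complex.I)) *
        KL K₀ φ M l (Function.update V (φ i) 0) x i * KL K₀ φ M l (Function.update V (φ i) 0) i y /
        (1 + (-(M * Complex.I)) * KL K₀ φ M l (Function.update V (φ i) 0) i i) := rfl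
    rw [e]
    have f : ∀ a b, Measurable fun V => KL K₀ φ M l (Function.update V (φ i) 0) a b :=
      fun a b => (ih a b).comp hu
    exact (f x y).sub ((((f x i).const_mul _).mul (f i y)).div (((f i i).const_mul _).const_add _))

omit hM in
/-- the negative moment over the potentials of a finite set -/
theorem neg_many {ν : Measure ℝ} [IsProbabilityMeasure ν] {ρ : ℝ} (hν : BddDens ν ρ)
    (hM : 1 ≤ M) {x y : ι} {b : ℝ≥0∞} {B : Finset ι}
    (hb : ∀ l : List ι, l.Nodup → (∀ i, i ∈ l ↔ i ∈ B) → ∀ V,
      (en (KL K₀ φ M l V x y)) ^ (-(1 / 4) : ℝ) ≤ b) (V : δ → ℝ) :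
    (∫⋯∫⁻_(B.image φ), (fun V => (en (K₀ V x y)) ^ (-(1 / 4) : ℝ)) ∂(fun _ => ν)) V ≤
      (CC ν ρ M) ^ B.card * b := by
  have hM0 : 0 ≤ M := by linarith
  have hmeas : ∀ l, Measurable fun V => (en (KL K₀ φ M l V x y)) ^ (-(1 / 4) : ℝ) := fun l =>
    ((h.meas_KL hM0 l x y).norm.ennreal_ofReal).pow_const _
  have key : ∀ s : Finset ι, ∀ l : List ι, l.Nodup → (∀ i ∈ l, i ∉ s) →
      (∀ i, (i ∈ s ∨ i ∈ l) ↔ i ∈ B) → ∀ V,
      (∫⋯∫⁻_(s.image φ), (fun V => (en (KL K₀ φ M l V x y)) ^ (-(1 / 4) : ℝ)) ∂(fun _ => ν)) V ≤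
        (CC ν ρ M) ^ s.card * b := by
    intro s
    induction s using Finset.induction_on with
    | empty =>
      intro l hl _ hB V
      rw [Finset.image_empty, lmarginal_empty, Finset.card_empty, pow_zero, one_mul]
      exact hb l hl (fun i => by simpa using hB i) V
    | insert u s hu ih =>
      intro l hl hdis hB V
      have hul : u ∉ l := fun hmem => hdis u hmem (Finset.mem_insert_self _ _)
      have hφu : φ u ∉ s.image φ := by
        intro hmem
        obtain ⟨i, hi, e⟩ := Finset.mem_image.1 hmem
        exact hu (h.inj e ▸ hi)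
      rw [Finset.image_insert, lmarginal_insert' _ (hmeas l) hφu]
      have hstep : ∀ V, ∫⁻ v, (en (KL K₀ φ M l (Function.update V (φ u) v) x y)) ^
          (-(1 / 4) : ℝ) ∂ν ≤ CC ν ρ M * (en (KL K₀ φ M (u :: l) V x y)) ^ (-(1 / 4) : ℝ) := by
        intro V
        have h1 := (h.ker_KL hM0 hl (Function.update V (φ u) 0)).neg_one_aux hν hM u x y
        refine le_trans (le_of_eq ?_) h1
        refine lintegral_congr fun v => ?_
        have e := h.KL_update hM0 hl hul (Function.update V (φ u) 0) v
        rw [Function.update_idem, Function.update_self, Complex.ofReal_zero, sub_zero] at e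
        rw [e]
      calc _ ≤ (∫⋯∫⁻_(s.image φ), (fun V => CC ν ρ M *
            (en (KL K₀ φ M (u :: l) V x y)) ^ (-(1 / 4) : ℝ)) ∂(fun _ => ν)) V := by
            refine lmarginal_mono (fun V => ?_) V
            exact hstep V
        _ = CC ν ρ M * (∫⋯∫⁻_(s.image φ), (fun V =>
            (en (KL K₀ φ M (u :: l) V x y)) ^ (-(1 / 4) : ℝ)) ∂(fun _ => ν)) V := by
            exact marg_const_mul _ (hmeas (u :: l)) V
        _ ≤ CC ν ρ M * ((CC ν ρ M) ^ s.card * b) := by
            gcongr
            refine ih (u :: l) (List.nodup_cons.2 ⟨hul, hl⟩) ?_ ?_ V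
            · intro i hi
              rcases List.mem_cons.1 hi with rfl | hi
              · exact hu
              · exact fun hs => hdis i hi (Finset.mem_insert_of_mem hs)
            · intro i
              rw [← hB i, Finset.mem_insert, List.mem_cons]
              tauto
        _ = _ := by
            rw [Finset.card_insert_of_notMem hu, pow_succ]
            ring
  have := key B [] List.nodup_nil (by simp) (fun i => by simp) V
  exact this

end Fam

end Pool.Agent.LY
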