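import Pool.Agent.Helper54_LY.Low
import Pool.Agent.LE.Stmts2

/-!
# Gaussian potentials: the constants are finite, and the one site inequality in the form OneTail
-/

set_option autoImplicit false
set_option linter.unusedSectionVars false

open scoped InnerProductSpace ComplexConjugate Topology ENNReal
open MeasureTheory Filter ProbabilityTheory

noncomputable section

namespace Pool.Agent.LY

open Pool.Agent.Anderson Pool.Agent.Loc Pool.Agent.Mob Pool.Agent.Helper54.Bal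

variable {d : ℕ}

theorem mom1_gl (σ : ℝ) : mom1 (gl σ) ≠ ∞ := by
  unfold mom1 gl
  rw [lintegral_map (by fun_prop) (by fun_prop)]
  have h1 : Integrable (fun t : ℝ => σ * t) γ1 := by
    have h2 : MemLp (id : ℝ → ℝ) 1 γ1 := memLp_id_gaussianReal 1
    exact (memLp_one_iff_integrable.1 h2).const_mul σ
  have h3 := h1.abs.lintegral_lt_top
  exact h3.ne

theorem CC_gl (σ ρ M : ℝ) : CC (gl σ) ρ M ≠ ∞ := by
  unfold CC
  refine ENNReal.mul_ne_top ENNReal.ofReal_ne_top ?_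
  refine ENNReal.add_ne_top.2 ⟨ENNReal.add_ne_top.2 ⟨by norm_num, mom1_gl σ⟩,
    ENNReal.ofReal_ne_top⟩

theorem Clow_gl (σ ρ : ℝ) {M : ℝ} (hM : M ≠ 0) : Clow d (gl σ) ρ M ≠ ∞ := by
  unfold Clow
  refine ENNReal.mul_ne_top (ENNReal.pow_ne_top (CC_gl σ ρ M)) ?_
  refine ENNReal.rpow_ne_top_of_ne_zero ?_ ENNReal.ofReal_ne_top
  rw [Ne, ENNReal.ofReal_eq_zero, not_le]
  positivity

/-- the negative moment with a real constant -/
theorem low_gl {σ : ℝ} (hσ : σ ≠ 0) (E : ℝ) : ∃ C : ℝ, 0 < C ∧ ∀ (Λ : Finset (Site d))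
    (x y : Site d), x ∈ Λ → y ∈ Λ → (x = y ∨ hop x y ≠ 0) →
    ∫⁻ V, (ENNReal.ofReal |gr V Λ E x y|) ^ (-(1 / 4) : ℝ) ∂(PL (gl σ) Λ) ≤ ENNReal.ofReal C := by
  set M : ℝ := 32 * (d : ℝ) ^ 2 + 4 + |E| with hM
  have hM0 : 0 < M := by positivity
  refine ⟨(Clow d (gl σ) (1 / |σ|) M).toReal + 1, by positivity, ?_⟩
  intro Λ x y hx hy hxy
  refine (low (bddDens_gl hσ) (M := M) ?_ Λ ?_ hx hy hxy).trans ?_
  · rw [hM]; have := abs_nonneg E; linarith
  · rw [hM]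
    have : 0 ≤ 32 * (d : ℝ) ^ 2 := by positivity
    linarith
  · rw [← ENNReal.ofReal_toReal (Clow_gl (d := d) σ (1 / |σ|) hM0.ne')]
    apply ENNReal.ofReal_le_ofReal
    rw [ENNReal.toReal_ofReal ENNReal.toReal_nonneg]
    linarith

/-- OneTail -/
theorem oneTail {σ : ℝ} (hσ : σ ≠ 0) (E : ℝ) : Pool.Agent.LE.OneTail d (gl σ) E (8 / |σ|) := by
  intro Λ x u y t _ _ _ ht
  have h := one (bddDens_gl hσ) Λ E u x y (τ := Real.exp t) (Real.exp_pos t)
  refine h.trans (ENNReal.ofReal_le_ofReal ?_)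
  have h1 : 8 * (1 / |σ|) / Real.exp t = 8 / |σ| * Real.exp (-t) := by
    rw [Real.exp_neg]
    ring
  rw [h1]
  have h2 : Real.exp (-t) ≤ Real.exp (-t / 3) := Real.exp_le_exp.2 (by linarith)
  have h3 : 0 ≤ 8 / |σ| := by positivity
  exact mul_le_mul_of_nonneg_left h2 h3

end Pool.Agent.LY
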