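import Mathlib

/-!
# Green functions with a complex potential on finitely many sites

`Ker L W K`: `K` is the kernel of `(L + W)⁻¹`, where `L` is a hopping operator and `Im W < 0`.
`upk u w K` is the kernel after the change `W u ↦ W u + w`.
-/

set_option autoImplicit false
set_option linter.unusedSectionVars false

open scoped InnerProductSpace ComplexConjugate Topology ENNReal
open MeasureTheory Filter

noncomputable section

namespace Pool.Agent.LY

variable {ι : Type*} [DecidableEq ι]

/-- kernels -/
abbrev Kern (ι : Type*) : Type _ := ι → ι → ℂ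

/-- rank one update of a kernel: the potential at `u` is increased by `w` -/
def upk (u : ι) (w : ℂ) (K : Kern ι) : Kern ι :=
  fun x y => K x y - w * K x u * K u y / (1 + w * K u u)

/-- the function `K f` -/
def app (K : Kern ι) (f : ι →₀ ℂ) (x : ι) : ℂ := f.sum fun y c => K x y * c

/-- the form `⟨f, K f⟩` -/
def form (K : Kern ι) (f : ι →₀ ℂ) : ℂ := f.sum fun x c => conj c * app K f x

/-- `K` is the kernel of `(L + W)⁻¹`. -/
structure Ker (L : (ι → ℂ) →ₗ[ℂ] (ι → ℂ)) (W : ι → ℂ) (K : Kern ι) : Prop where
  symm : ∀ x y, K x y = K y x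
  eqn : ∀ x y, L (fun t => K t y) x + W x * K x y = if x = y then 1 else 0
  neg : ∀ x, (W x).im < 0
  pos : ∀ (f : ι →₀ ℂ) (T : Finset (ι)),
    ∑ u ∈ T, (-(W u).im) * ‖app K f u‖ ^ 2 ≤ (form K f).im

theorem app_single (K : Kern ι) (y : ι) (c : ℂ) (x : ι) :
    app K (Finsupp.single y c) x = K x y * c := by
  unfold app
  rw [Finsupp.sum_single_index (by simp)]

theorem form_single (K : Kern ι) (y : ι) (c : ℂ) :
    form K (Finsupp.single y c) = conj c * (K y y * c) := by
  unfold form
  rw [Finsupp.sum_single_index (by simp), app_single]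

theorem app_sub (K : Kern ι) (f g : ι →₀ ℂ) (x : ι) :
    app K (f - g) x = app K f x - app K g x := by
  unfold app
  rw [Finsupp.sum_sub_index]
  intro y a b
  ring

namespace Ker

variable {L : (ι → ℂ) →ₗ[ℂ] (ι → ℂ)} {W : ι → ℂ} {K : Kern ι} (h : Ker L W K)
include h

/-- the norm bound at one column -/
theorem col (y : ι) (T : Finset (ι)) :
    ∑ u ∈ T, (-(W u).im) * ‖K u y‖ ^ 2 ≤ (K y y).im := by
  have h1 := h.pos (Finsupp.single y 1) T
  rw [form_single] at h1
  simpa [app_single] using h1

theorem im_pos (y : ι) : 0 < (K y y).im := by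
  by_contra hcon
  push Not at hcon
  have h0 : ∀ u, K u y = 0 := by
    intro u
    have h1 := h.col y {u}
    rw [Finset.sum_singleton] at h1
    have h2 := h.neg u
    have h3 : ‖K u y‖ ^ 2 = 0 := by
      have h4 : 0 ≤ ‖K u y‖ ^ 2 := by positivity
      by_contra h5
      have h6 : 0 < ‖K u y‖ ^ 2 := lt_of_le_of_ne h4 (Ne.symm h5)
      have : 0 < (-(W u).im) * ‖K u y‖ ^ 2 := mul_pos (by linarith) h6
      linarith
    exact norm_eq_zero.1 (pow_eq_zero_iff (by norm_num) |>.1 h3)
  have h1 := h.eqn y y
  rw [if_pos rfl] at h1
  have h2 : (fun t => K t y) = 0 := funext h0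
  rw [h2, map_zero, h0] at h1
  simp at h1

theorem ne_zero (y : ι) : K y y ≠ 0 := by
  intro h0
  have := h.im_pos y
  rw [h0] at this
  simp at this

/-- the denominator is not zero -/
theorem den_ne {w : ℂ} (hw : w.im ≤ 0) (u : ι) : 1 + w * K u u ≠ 0 := by
  intro h0
  have h1 : (K u u)⁻¹ = -w := by
    have h2 := h.ne_zero u
    field_simp
    linear_combination h0
  have h3 : ((K u u)⁻¹).im < 0 := by
    rw [Complex.inv_im]
    have h4 := h.im_pos u
    have h5 : 0 < Complex.normSq (K u u) := Complex.normSq_pos.2 (h.ne_zero u)
    rw [div_neg_iff]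
    right
    exact ⟨by linarith, h5⟩
  rw [h1, Complex.neg_im] at h3
  linarith

theorem app_upk {w : ℂ} (u : ι) (f : ι →₀ ℂ) (x : ι) :
    app (upk u w K) f x = app K f x - w * K x u * app K f u / (1 + w * K u u) := by
  unfold app upk
  simp only [Finsupp.sum]
  rw [Finset.mul_sum, Finset.sum_div, ← Finset.sum_sub_distrib]
  refine Finset.sum_congr rfl fun y _ => ?_
  ring

/-- the update of a kernel -/
theorem upd {w : ℂ} (hw : w.im ≤ 0) (u : ι) :
    Ker L (Function.update W u (W u + w)) (upk u w K) where
  symm x y := by
    unfold upk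
    rw [h.symm x y, h.symm x u, h.symm u y]
    ring
  eqn x y := by
    have hD := h.den_ne hw u
    set c : ℂ := w * K u y / (1 + w * K u u) with hc
    have e : (fun t => upk u w K t y) = (fun t => K t y) - c • fun t => K t u := by
      funext t
      rw [Pi.sub_apply, Pi.smul_apply, smul_eq_mul]
      unfold upk
      rw [hc]
      ring
    have e2 : L ((fun t => K t y) - c • fun t => K t u) x =
        L (fun t => K t y) x - c * L (fun t => K t u) x := by
      rw [map_sub, map_smul, Pi.sub_apply, Pi.smul_apply, smul_eq_mul]
    have e3 : upk u w K x y = K x y - c * K x u := by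
      unfold upk
      rw [hc]
      ring
    rw [e, e2, e3]
    have h1 := h.eqn x y
    have h2 := h.eqn x u
    by_cases hx : x = u
    · subst hx
      rw [Function.update_self]
      rw [if_pos rfl] at h2
      have h3 : w * (K x y - c * K x x) = c := by
        rw [hc]
        field_simp
        ring
      linear_combination h1 - c * h2 + h3
    · rw [Function.update_of_ne hx]
      rw [if_neg hx] at h2
      linear_combination h1 - c * h2
  neg x := by
    by_cases hx : x = u
    · subst hx
      rw [Function.update_self, Complex.add_im]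
      have := h.neg x
      linarith
    · rw [Function.update_of_ne hx]
      exact h.neg x
  pos f T := by
    have hD := h.den_ne hw u
    set b : ℂ := app K f u / (1 + w * K u u) with hb
    have hbu : app (upk u w K) f u = b := by
      rw [h.app_upk, hb]
      field_simp
      ring
    set g : ι →₀ ℂ := f - Finsupp.single u (w * b) with hg
    have hag : ∀ x, app K g x = app (upk u w K) f x := by
      intro x
      rw [hg, app_sub, app_single, h.app_upk, hb]
      ring
    have hform : form K g = form (upk u w K) f - conj (w * b) * b := by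
      unfold form
      rw [hg, Finsupp.sum_sub_index (by intros; rw [map_sub]; ring),
        Finsupp.sum_single_index (by simp), ← hg, hag u, hbu]
      congr 1
      unfold Finsupp.sum
      refine Finset.sum_congr rfl fun x _ => ?_
      simp only [hag x]
    have him : (form (upk u w K) f).im = (form K g).im + (-w.im) * ‖b‖ ^ 2 := by
      have h1 : (conj (w * b) * b).im = (-w.im) * ‖b‖ ^ 2 := by
        rw [map_mul, mul_assoc, Complex.conj_mul', ← Complex.ofReal_pow, Complex.im_mul_ofReal,
          Complex.conj_im]
      rw [hform, Complex.sub_im, h1]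
      ring
    rw [him]
    have h1 := h.pos g T
    simp only [hag] at h1
    have h2 : ∑ v ∈ T, (-(Function.update W u (W u + w) v).im) * ‖app (upk u w K) f v‖ ^ 2 ≤
        ∑ v ∈ T, (-(W v).im) * ‖app (upk u w K) f v‖ ^ 2 + (-w.im) * ‖b‖ ^ 2 := by
      by_cases hu : u ∈ T
      · rw [← Finset.add_sum_erase _ _ hu, ← Finset.add_sum_erase _ _ hu, Function.update_self,
          Complex.add_im, hbu]
        have h3 : ∑ v ∈ T.erase u, (-(Function.update W u (W u + w) v).im) *
            ‖app (upk u w K) f v‖ ^ 2 = ∑ v ∈ T.erase u, (-(W v).im) *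
            ‖app (upk u w K) f v‖ ^ 2 := by
          refine Finset.sum_congr rfl fun v hv => ?_
          rw [Function.update_of_ne (Finset.ne_of_mem_erase hv)]
        rw [h3]
        apply le_of_eq
        ring
      · have h3 : ∑ v ∈ T, (-(Function.update W u (W u + w) v).im) *
            ‖app (upk u w K) f v‖ ^ 2 = ∑ v ∈ T, (-(W v).im) *
            ‖app (upk u w K) f v‖ ^ 2 := by
          refine Finset.sum_congr rfl fun v hv => ?_
          have hvu : v ≠ u := by
            rintro rfl
            exact hu hv
          rw [Function.update_of_ne hvu]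
        rw [h3]
        have h4 : 0 ≤ (-w.im) * ‖b‖ ^ 2 := mul_nonneg (by linarith) (by positivity)
        linarith
    linarith

end Ker

/-- updates at different sites commute -/
theorem upk_comm {K : Kern ι} {u v : ι} {w w' : ℂ}
    (h1 : 1 + w * K u u ≠ 0) (h2 : 1 + w' * K v v ≠ 0)
    (h3 : 1 + w' * upk u w K v v ≠ 0) :
    upk v w' (upk u w K) = upk u w (upk v w' K) := by
  funext x y
  have hD : (1 + w * K u u) * (1 + w' * K v v) - w * w' * K u v * K v u ≠ 0 := by
    have e : (1 + w * K u u) * (1 + w' * K v v) - w * w' * K u v * K v u =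
        (1 + w * K u u) * (1 + w' * upk u w K v v) := by
      unfold upk
      field_simp
      ring
    rw [e]
    exact mul_ne_zero h1 h3
  have e1 : 1 + w' * upk u w K v v =
      ((1 + w * K u u) * (1 + w' * K v v) - w * w' * K u v * K v u) / (1 + w * K u u) := by
    unfold upk
    field_simp
    ring
  have e2 : 1 + w * upk v w' K u u =
      ((1 + w * K u u) * (1 + w' * K v v) - w * w' * K u v * K v u) / (1 + w' * K v v) := by
    unfold upk
    field_simp
    ring
  have g1 : upk v w' (upk u w K) x y = upk u w K x y -
      w' * upk u w K x v * upk u w K v y / (1 + w' * upk u w K v v) := rfl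
  have g2 : upk u w (upk v w' K) x y = upk v w' K x y -
      w * upk v w' K x u * upk v w' K u y / (1 + w * upk v w' K u u) := rfl
  rw [g1, g2, e1, e2]
  unfold upk
  field_simp
  ring

end Pool.Agent.LY
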