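import Pool.Agent.Helper54_LY.Aff

/-!
# One potential: negative moments, and the ratio of Green functions
-/

set_option autoImplicit false
set_option linter.unusedSectionVars false

open scoped InnerProductSpace ComplexConjugate Topology ENNReal
open MeasureTheory Filter

noncomputable section

namespace Pool.Agent.LY

open Pool.Agent.Loc

variable {ι : Type*} [DecidableEq ι]

/-- the function of the comparison is a quotient of affine functions -/
theorem upk_eq {K : Kern ι} {u : ι} {w : ℂ} (hD : 1 + w * K u u ≠ 0) (x y : ι) :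
    upk u w K x y = (K x y + w * (K u u * K x y - K x u * K u y)) / (1 + w * K u u) := by
  unfold upk
  field_simp
  ring

/-- the numerator: affine function -/
theorem affine_le {p q : ℂ} {M : ℝ} (hM : 0 ≤ M) {v : ℝ} (hv : q ≠ 0 → (v : ℂ) - (-p / q) ≠ 0) :
    ‖p + (-(M * Complex.I)) * q‖ ≤
      ‖p + v * q‖ * (1 + (|v| + M) * ‖(v : ℂ) - (-p / q)‖⁻¹) := by
  by_cases hq : q = 0
  · subst hq
    simp only [mul_zero, add_zero]
    have h1 : 0 ≤ ‖p‖ := norm_nonneg _
    have h2 : 0 ≤ (|v| + M) * ‖(v : ℂ) - (-p / 0)‖⁻¹ := by positivity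
    nlinarith
  · have h0 := hv hq
    have e1 : p + v * q = q * ((v : ℂ) - (-p / q)) := by
      field_simp
      ring
    have e2 : p + (-(M * Complex.I)) * q = (p + v * q) + (-(M * Complex.I) - v) * q := by ring
    have h1 : ‖-((M : ℂ) * Complex.I) - v‖ ≤ |v| + M := by
      refine (norm_sub_le _ _).trans ?_
      rw [norm_neg, norm_mul, Complex.norm_I, mul_one, Complex.norm_real, Complex.norm_real,
        Real.norm_of_nonneg hM, Real.norm_eq_abs]
      linarith
    have hpos : 0 < ‖(v : ℂ) - (-p / q)‖ := norm_pos_iff.2 h0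
    calc ‖p + (-(M * Complex.I)) * q‖ ≤ ‖p + v * q‖ + ‖(-(M * Complex.I) - v) * q‖ := by
          rw [e2]; exact norm_add_le _ _
      _ ≤ ‖p + v * q‖ + (|v| + M) * ‖q‖ := by
          rw [norm_mul]
          gcongr
      _ = ‖p + v * q‖ * (1 + (|v| + M) * ‖(v : ℂ) - (-p / q)‖⁻¹) := by
          rw [e1, norm_mul]
          generalize ‖(v : ℂ) - (-p / q)‖ = r at hpos
          field_simp

/-- the denominator -/
theorem den_le {g : ℂ} (hg : 0 < g.im) {M : ℝ} (hM : 0 < M) (v : ℝ) :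
    ‖1 + v * g‖ ≤ (1 + |v| / M) * ‖1 + (-(M * Complex.I)) * g‖ := by
  have hg0 : g ≠ 0 := by
    intro h
    rw [h] at hg
    simp at hg
  have e1 : 1 + v * g = (1 + (-(M * Complex.I)) * g) + (v + M * Complex.I) * g := by ring
  -- `‖1 - iMg‖ ≥ M ‖g‖`, hence the claim needs a finer splitting
  set a : ℂ := -g⁻¹ with ha
  have ha_im : 0 < a.im := by
    rw [ha, Complex.neg_im, Complex.inv_im]
    have h5 : 0 < Complex.normSq g := Complex.normSq_pos.2 hg0
    rw [neg_div, neg_neg]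
    positivity
  have f1 : 1 + v * g = g * ((v : ℂ) - a) := by
    rw [ha]; field_simp; ring
  have f2 : 1 + (-(M * Complex.I)) * g = g * (-(M * Complex.I) - a) := by
    rw [ha]; field_simp; ring
  have hsq : ‖-((M : ℂ) * Complex.I) - a‖ ^ 2 = a.re ^ 2 + (M + a.im) ^ 2 := by
    rw [← Complex.normSq_eq_norm_sq, Complex.normSq_apply]
    simp
    ring
  have hasq : ‖a‖ ^ 2 = a.re ^ 2 + a.im ^ 2 := by
    rw [← Complex.normSq_eq_norm_sq, Complex.normSq_apply]
    ring
  have h1 : ‖a‖ ≤ ‖-((M : ℂ) * Complex.I) - a‖ := by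
    apply (pow_le_pow_iff_left₀ (norm_nonneg _) (norm_nonneg _) two_ne_zero).1
    rw [hsq, hasq]
    nlinarith
  have h2 : M ≤ ‖-((M : ℂ) * Complex.I) - a‖ := by
    apply (pow_le_pow_iff_left₀ hM.le (norm_nonneg _) two_ne_zero).1
    rw [hsq]
    nlinarith [sq_nonneg a.re]
  rw [f1, f2, norm_mul, norm_mul]
  have h3 : ‖(v : ℂ) - a‖ ≤ (1 + |v| / M) * ‖-((M : ℂ) * Complex.I) - a‖ := by
    calc ‖(v : ℂ) - a‖ ≤ |v| + ‖a‖ := by
          refine (norm_sub_le _ _).trans ?_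
          rw [Complex.norm_real, Real.norm_eq_abs]
      _ ≤ |v| / M * ‖-((M : ℂ) * Complex.I) - a‖ + ‖-((M : ℂ) * Complex.I) - a‖ := by
          have : |v| ≤ |v| / M * ‖-((M : ℂ) * Complex.I) - a‖ := by
            rw [div_mul_eq_mul_div, le_div_iff₀ hM]
            exact mul_le_mul_of_nonneg_left h2 (abs_nonneg _)
          linarith
      _ = _ := by ring
  calc ‖g‖ * ‖(v : ℂ) - a‖ ≤ ‖g‖ * ((1 + |v| / M) * ‖-((M : ℂ) * Complex.I) - a‖) := by gcongr
    _ = _ := by ring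

section

variable {L : (ι → ℂ) →ₗ[ℂ] (ι → ℂ)} {W : ι → ℂ} {K : Kern ι} (h : Ker L W K)
  {ν : Measure ℝ} [IsProbabilityMeasure ν] {ρ : ℝ}
include h

theorem neg_im_le {M : ℝ} (hM : 0 ≤ M) : (-(M * Complex.I)).im ≤ 0 := by
  simp [hM]

/-- the negative moment over one potential, compared with the potential `- i M` -/
theorem Ker.neg_one_aux (hν : BddDens ν ρ) {M : ℝ} (hM : 1 ≤ M) (u x y : ι) :
    ∫⁻ v : ℝ, (en (upk u v K x y)) ^ (-(1 / 4) : ℝ) ∂ν ≤
      CC ν ρ M * (en (upk u (-(M * Complex.I)) K x y)) ^ (-(1 / 4) : ℝ) := by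
  set p := K x y with hp
  set q := K u u * K x y - K x u * K u y with hq
  have hM0 : 0 < M := by linarith
  apply neg_moment hν hM (-p / q)
  have hnull : ∀ᵐ v : ℝ ∂ν, v ≠ (-p / q).re := by
    rw [ae_iff]
    have : {v : ℝ | ¬ v ≠ (-p / q).re} = {(-p / q).re} := by ext; simp
    rw [this]
    exact null_singleton hν _
  filter_upwards [hnull] with v hv
  have hv' : (v : ℂ) - (-p / q) ≠ 0 := by
    intro h0
    apply hv
    have := congrArg Complex.re h0
    simp only [Complex.sub_re, Complex.ofReal_re, Complex.zero_re] at this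
    linarith
  have hDv := h.den_ne (w := (v : ℂ)) (by simp) u
  have hDM := h.den_ne (w := -(M * Complex.I)) (neg_im_le h hM0.le) u
  rw [upk_eq hDv, upk_eq hDM, ← hp, ← hq, norm_div, norm_div]
  have h1 := affine_le (p := p) (q := q) hM0.le (v := v) (fun _ => hv')
  have h2 := den_le (h.im_pos u) hM0 v
  have hDv0 : 0 < ‖1 + (v : ℂ) * K u u‖ := norm_pos_iff.2 hDv
  have hDM0 : 0 < ‖1 + (-(M * Complex.I)) * K u u‖ := norm_pos_iff.2 hDM
  have h3 : 1 ≤ (1 + |v| / M) * ‖1 + (-(M * Complex.I)) * K u u‖ / ‖1 + (v : ℂ) * K u u‖ := by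
    rw [le_div_iff₀ hDv0, one_mul]
    exact h2
  unfold wt
  calc ‖p + (-(M * Complex.I)) * q‖ / ‖1 + (-(M * Complex.I)) * K u u‖
      ≤ (‖p + v * q‖ * (1 + (|v| + M) * ‖(v : ℂ) - (-p / q)‖⁻¹)) /
          ‖1 + (-(M * Complex.I)) * K u u‖ *
          ((1 + |v| / M) * ‖1 + (-(M * Complex.I)) * K u u‖ / ‖1 + (v : ℂ) * K u u‖) := by
        have h4 : ‖p + (-(M * Complex.I)) * q‖ / ‖1 + (-(M * Complex.I)) * K u u‖ ≤
            (‖p + v * q‖ * (1 + (|v| + M) * ‖(v : ℂ) - (-p / q)‖⁻¹)) /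
            ‖1 + (-(M * Complex.I)) * K u u‖ := by gcongr
        have h5 : 0 ≤ (‖p + v * q‖ * (1 + (|v| + M) * ‖(v : ℂ) - (-p / q)‖⁻¹)) /
            ‖1 + (-(M * Complex.I)) * K u u‖ := by positivity
        nlinarith
    _ = _ := by
        generalize ‖(v : ℂ) - (-p / q)‖⁻¹ = g
        generalize hA : ‖1 + (-(M * Complex.I)) * K u u‖ = A at hDM0
        generalize ‖1 + (v : ℂ) * K u u‖ = B at hDv0
        field_simp

/-- the ratio of the Green functions at a site `u` between `x` and `y` -/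
theorem Ker.ratio_le (u x y : ι) (v : ℝ) (hN : upk u v K x y ≠ 0) :
    ‖upk u v K x u‖ * ‖upk u v K u y‖ / ‖upk u v K x y‖ ≤
      ‖(v : ℂ) - (-K x y / (K u u * K x y - K x u * K u y))‖⁻¹ +
        ‖(v : ℂ) - (-1 / K u u)‖⁻¹ := by
  have hD := h.den_ne (w := (v : ℂ)) (by simp) u
  have hg := h.ne_zero u
  set p := K x y with hp
  set q := K u u * K x y - K x u * K u y with hq
  set D : ℂ := 1 + v * K u u with hDdef
  set N : ℂ := p + v * q with hNdef
  have e1 : upk u v K x u = K x u / D := by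
    rw [upk_eq hD]
    congr 1
    ring
  have e2 : upk u v K u y = K u y / D := by
    rw [upk_eq hD]
    congr 1
    ring
  have e3 : upk u v K x y = N / D := upk_eq hD x y
  have hN0 : N ≠ 0 := by
    intro h0
    apply hN
    rw [e3, h0, zero_div]
  have hD0 : 0 < ‖D‖ := norm_pos_iff.2 hD
  have hNp : 0 < ‖N‖ := norm_pos_iff.2 hN0
  rw [e1, e2, e3, norm_div, norm_div, norm_div]
  have e4 : ‖K x u‖ / ‖D‖ * (‖K u y‖ / ‖D‖) / (‖N‖ / ‖D‖) = ‖K x u * K u y‖ / (‖D‖ * ‖N‖) := by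
    rw [norm_mul]
    field_simp
  rw [e4]
  have e5 : K x u * K u y = K u u * N - D * q := by
    rw [hNdef, hDdef, hq, hp]
    ring
  have h1 : ‖K x u * K u y‖ ≤ ‖K u u‖ * ‖N‖ + ‖D‖ * ‖q‖ := by
    rw [e5]
    refine (norm_sub_le _ _).trans ?_
    rw [norm_mul, norm_mul]
  have h2 : ‖K x u * K u y‖ / (‖D‖ * ‖N‖) ≤ ‖q‖ / ‖N‖ + ‖K u u‖ / ‖D‖ := by
    rw [div_add_div _ _ hNp.ne' hD0.ne', mul_comm ‖D‖ ‖N‖]
    gcongr
    linarith
  refine h2.trans (add_le_add ?_ (le_of_eq ?_))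
  · by_cases hq0 : q = 0
    · rw [hq0, norm_zero, zero_div]
      positivity
    · have e6 : N = q * ((v : ℂ) - (-p / q)) := by
        rw [hNdef]
        field_simp
        ring
      rw [e6, norm_mul]
      have hq1 : 0 < ‖q‖ := norm_pos_iff.2 hq0
      have : ‖q‖ / (‖q‖ * ‖(v : ℂ) - (-p / q)‖) = ‖(v : ℂ) - (-p / q)‖⁻¹ := by
        field_simp
      rw [this]
  · have e7 : D = K u u * ((v : ℂ) - (-1 / K u u)) := by
      rw [hDdef]
      field_simp
      ring
    rw [e7, norm_mul]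
    have hg1 : 0 < ‖K u u‖ := norm_pos_iff.2 hg
    field_simp

end

end Pool.Agent.LY
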